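import Pool.Agent.helper20.SOL.Spec

/-!
# Row CSI: symmetric sets of constant norm
-/

set_option autoImplicit false

namespace Pool.Agent.SOL

theorem CSI_add {n : ℕ} (x v : Vec n) : dp (x + v) (x + v) = dp x x + 2 * dp x v + dp v v := by
  have h1 := dp_sub_sub x (-v)
  rw [sub_neg_eq_add, dp_neg_right, dp_neg_neg] at h1
  rw [h1]
  ring

theorem CSI_two {n : ℕ} {S : Set (Vec n)} {N : ℤ} (hN : ∀ x ∈ S, dp x x = N) {x y : Vec n}
    (hx : x ∈ S) (hy : y ∈ S) (h : x - y ∈ S) : 2 * dp x y = N := by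
  have h1 := dp_sub_sub x y
  rw [hN _ hx, hN _ hy, hN _ h] at h1
  omega

theorem CSI : CSI_stmt := by
  intro n S N hN0 hneg hN
  refine ⟨hneg, ?_, ?_, ?_, ?_⟩
  · intro h0
    have h1 := hN _ h0
    have h2 : dp (0 : Vec n) 0 = 0 := by
      unfold dp
      simp
    omega
  · intro x hx h
    have h1 := hN _ h
    rw [CSI_add, hN _ hx] at h1
    omega
  · intro x hx y hy hxy v hv hyv hxyv
    have h1 := CSI_two hN hy hv hyv
    have h2 := CSI_two hN hxy hv hxyv
    rw [dp_sub_left] at h2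
    have h3 : dp (x - v) (x - v) = 0 := by
      rw [dp_sub_sub, hN _ hx, hN _ hv]
      omega
    exact (sub_eq_zero.1 (eq_zero_of_dp h3)).symm
  · intro x hx v hv hxv h
    have h1 := CSI_two hN hx hv hxv
    have h2 := hN _ h
    rw [CSI_add, hN _ hx, hN _ hv] at h2
    omega

end Pool.Agent.SOL
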