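import Pool.Agent.helper20.SOL.SpecE

set_option autoImplicit false

/-!
# Row ME7a: the vectors of norm 8 k, k = 1, 2, 3, of the lattice E_7
-/

namespace Pool.Agent.SOL

open Pool.Agent.helper54.SOG Finset

open scoped BigOperators

/-- the data of a representative: `L` is a list of `k` orthogonal roots with sum `y`, and
`n0, ..., n8` are the numbers of `y` -/
def ME7a_Rep (L : List (Vec 8)) (y : Vec 8) (k : ℕ) (n0 n1 n2 n3 n4 n5 n6 n7 n8 : ℕ) : Prop :=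
  (∀ a ∈ L, ((∀ i j, a i % 2 = a j % 2) ∧ (∑ i, a i) % 4 = 0) ∧ a 6 + a 7 = 0 ∧ dp a a = 8) ∧
  L.Pairwise (fun a b => dp a b = 0) ∧ L.sum = y ∧ L.length = k ∧
  ((∀ i j, y i % 2 = y j % 2) ∧ (∑ i, y i) % 4 = 0) ∧ (∀ i, |y i| ≤ 8) ∧
  (cN 6 y 0 = n0 ∧ cN 6 y 1 = n1 ∧ cN 6 y 2 = n2 ∧ cN 6 y 3 = n3 ∧ cN 6 y 4 = n4 ∧
    cN 6 y 5 = n5 ∧ cN 6 y 6 = n6 ∧ cN 6 y 7 = n7 ∧ cN 6 y 8 = n8)

instance (L : List (Vec 8)) (y : Vec 8) (k : ℕ) (n0 n1 n2 n3 n4 n5 n6 n7 n8 : ℕ) :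
    Decidable (ME7a_Rep L y k n0 n1 n2 n3 n4 n5 n6 n7 n8) := by
  unfold ME7a_Rep
  infer_instance

theorem ME7a_mem (hCLQ : CLQ_stmt) {L : List (Vec 8)} {y : Vec 8} {k : ℕ}
    {n0 n1 n2 n3 n4 n5 n6 n7 n8 : ℕ} (h : ME7a_Rep L y k n0 n1 n2 n3 n4 n5 n6 n7 n8) :
    y ∈ VE R7 k := by
  obtain ⟨h1, h2, h3, h4, -⟩ := h
  have h5 := hCLQ R7 L (fun a ha => ⟨⟨(h1 a ha).1, (h1 a ha).2.1, by
    rw [(h1 a ha).2.2]; norm_num⟩, (h1 a ha).2.2⟩) h2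
  rwa [h3, h4] at h5

/-- reduction to a representative -/
theorem ME7a_fin (hREP : REP_stmt) (hCTE : CTE_stmt) (hPRD : PRD_stmt) (hCLQ : CLQ_stmt)
    (L : List (Vec 8)) (x y : Vec 8) (k : ℕ) (n0 n1 n2 n3 n4 n5 n6 n7 n8 : ℕ)
    (hx : x ∈ EL) (hb : ∀ i, |x i| ≤ 8) (h6 : x 6 = y 6) (h7 : x 7 = y 7)
    (hc : cN 6 x 0 = n0 ∧ cN 6 x 1 = n1 ∧ cN 6 x 2 = n2 ∧ cN 6 x 3 = n3 ∧ cN 6 x 4 = n4 ∧
      cN 6 x 5 = n5 ∧ cN 6 x 6 = n6 ∧ cN 6 x 7 = n7 ∧ cN 6 x 8 = n8)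
    (hp : x 0 % 2 = 1 ∨ 0 < cN 6 x 0 ∨ pN 6 x = pN 6 y)
    (hy : ME7a_Rep L y k n0 n1 n2 n3 n4 n5 n6 n7 n8) : x ∈ VE R7 k := by
  have hyV := ME7a_mem hCLQ hy
  obtain ⟨-, -, -, -, hyEL, hyb, y0, y1, y2, y3, y4, y5, y6, y7, y8⟩ := hy
  obtain ⟨x0, x1, x2, x3, x4, x5, x6, x7, x8⟩ := hc
  have hcv : ∀ v : ℤ, cN 6 x v = cN 6 y v := by
    intro v
    by_cases hv : v < 0 ∨ 8 < v
    · rw [(hCTE 6 x (by norm_num) hb).2.2.1 v hv, (hCTE 6 y (by norm_num) hyb).2.2.1 v hv]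
    · push Not at hv
      obtain ⟨hv1, hv2⟩ := hv
      interval_cases v
      · rw [x0, y0]
      · rw [x1, y1]
      · rw [x2, y2]
      · rw [x3, y3]
      · rw [x4, y4]
      · rw [x5, y5]
      · rw [x6, y6]
      · rw [x7, y7]
      · rw [x8, y8]
  have hxy : ∀ i : Fin 8, 6 ≤ i.val → x i = y i := by
    intro i hi
    have : i = 6 ∨ i = 7 := by
      have := i.2
      rcases (show i.val = 6 ∨ i.val = 7 by omega) with h | h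
      · exact Or.inl (Fin.ext h)
      · exact Or.inr (Fin.ext h)
    rcases this with rfl | rfl
    · exact h6
    · exact h7
  have hpp : pN 6 x = pN 6 y := by
    rcases hp with hp | hp | hp
    · exact hPRD.1 6 x y (Or.inr (Or.inl rfl)) hx hyEL hp hxy hcv
    · obtain ⟨e1, e2⟩ := hPRD.2.1 6 x y hcv hp
      rw [e1, e2]
    · exact hp
  exact (hREP k x y).2.1 hxy hcv hpp hyV

theorem ME7a_par {x : Vec 8} (hx : x ∈ EL) {v : ℤ} (hv : v % 2 ≠ x 6 % 2) : cN 6 x v = 0 := by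
  unfold cN
  rw [Finset.card_eq_zero, Finset.filter_eq_empty_iff]
  rintro i - ⟨-, h⟩
  have h1 := hx.1 i 6
  rcases abs_choice (x i) with h2 | h2 <;> omega

/-- the numbers of a vector of norm `8 k` -/
theorem ME7a_num (hCTE : CTE_stmt) {k : ℕ} (hk : k ≤ 5) {x : Vec 8} (hx : x ∈ XE7 k) :
    (∀ i, |x i| ≤ 8) ∧
    cN 6 x 0 + cN 6 x 1 + cN 6 x 2 + cN 6 x 3 + cN 6 x 4 + cN 6 x 5 + cN 6 x 6 + cN 6 x 7 +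
      cN 6 x 8 = 6 ∧
    (cN 6 x 1 : ℤ) + 4 * cN 6 x 2 + 9 * cN 6 x 3 + 16 * cN 6 x 4 + 25 * cN 6 x 5 +
      36 * cN 6 x 6 + 49 * cN 6 x 7 + 64 * cN 6 x 8 + 2 * (x 6 * x 6) = 8 * k := by
  obtain ⟨-, h67, hd⟩ := hx
  have hb : ∀ i, |x i| ≤ 8 := by
    intro i
    have h1 : x i * x i ≤ dp x x := by
      unfold dp
      exact Finset.single_le_sum (f := fun i => x i * x i) (fun j _ => mul_self_nonneg _)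
        (Finset.mem_univ i)
    have h2 : (k : ℤ) ≤ 5 := by exact_mod_cast hk
    rw [abs_le]
    constructor <;> nlinarith
  obtain ⟨h1, h2, -, h3⟩ := hCTE 6 x (by norm_num) hb
  refine ⟨hb, ?_, ?_⟩
  · simp only [Finset.sum_range_succ, Finset.sum_range_zero, Nat.cast_zero, Nat.cast_one,
      Nat.cast_ofNat, zero_add] at h1
    exact h1
  · simp only [Finset.sum_range_succ, Finset.sum_range_zero, Nat.cast_zero, Nat.cast_one,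
      Nat.cast_ofNat, zero_add, zero_mul, one_mul] at h2
    have h4 : (univ.filter (fun i : Fin 8 => ¬ i.val < 6)) = {6, 7} := by decide
    have h5 : ∑ i ∈ univ.filter (fun i : Fin 8 => ¬ i.val < 6), x i * x i =
        2 * (x 6 * x 6) := by
      rw [h4, Finset.sum_pair (by decide)]
      have : x 7 = -x 6 := by linarith
      rw [this]
      ring
    rw [h5, h2, hd] at h3
    rw [h3]
    ring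

theorem ME7a_ev (hCTE : CTE_stmt) {k : ℕ} (hk : k ≤ 5) {x : Vec 8} (hx : x ∈ XE7 k) {a : ℤ}
    (ha : x 6 = a) (b : ℤ) (hab : a + b = 0) (hev : a % 2 = 0) (tot : ℕ)
    (ht : 2 * (a * a) + tot = 8 * k) :
    (∀ i, |x i| ≤ 8) ∧ x 7 = b ∧ cN 6 x 1 = 0 ∧ cN 6 x 3 = 0 ∧ cN 6 x 5 = 0 ∧ cN 6 x 7 = 0 ∧
      cN 6 x 0 + cN 6 x 2 + cN 6 x 4 + cN 6 x 6 + cN 6 x 8 = 6 ∧
      4 * cN 6 x 2 + 16 * cN 6 x 4 + 36 * cN 6 x 6 + 64 * cN 6 x 8 = tot := by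
  obtain ⟨hb, hsum, hq⟩ := ME7a_num hCTE hk hx
  have p1 : cN 6 x 1 = 0 := ME7a_par hx.1 (by rw [ha, hev]; norm_num)
  have p3 : cN 6 x 3 = 0 := ME7a_par hx.1 (by rw [ha, hev]; norm_num)
  have p5 : cN 6 x 5 = 0 := ME7a_par hx.1 (by rw [ha, hev]; norm_num)
  have p7 : cN 6 x 7 = 0 := ME7a_par hx.1 (by rw [ha, hev]; norm_num)
  rw [ha] at hq
  refine ⟨hb, ?_, p1, p3, p5, p7, by omega, ?_⟩
  · have := hx.2.1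
    linarith
  · have h1 : (4 * cN 6 x 2 + 16 * cN 6 x 4 + 36 * cN 6 x 6 + 64 * cN 6 x 8 : ℤ) = tot := by
      rw [p1, p3, p5, p7] at hq
      push_cast at hq
      linarith
    exact_mod_cast h1

theorem ME7a_od (hCTE : CTE_stmt) {k : ℕ} (hk : k ≤ 5) {x : Vec 8} (hx : x ∈ XE7 k) {a : ℤ}
    (ha : x 6 = a) (b : ℤ) (hab : a + b = 0) (hod : a % 2 = 1) (tot : ℕ)
    (ht : 2 * (a * a) + tot = 8 * k) :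
    (∀ i, |x i| ≤ 8) ∧ x 7 = b ∧ x 0 % 2 = 1 ∧
      cN 6 x 0 = 0 ∧ cN 6 x 2 = 0 ∧ cN 6 x 4 = 0 ∧ cN 6 x 6 = 0 ∧ cN 6 x 8 = 0 ∧
      cN 6 x 1 + cN 6 x 3 + cN 6 x 5 + cN 6 x 7 = 6 ∧
      cN 6 x 1 + 9 * cN 6 x 3 + 25 * cN 6 x 5 + 49 * cN 6 x 7 = tot := by
  obtain ⟨hb, hsum, hq⟩ := ME7a_num hCTE hk hx
  have p0 : cN 6 x 0 = 0 := ME7a_par hx.1 (by rw [ha, hod]; norm_num)
  have p2 : cN 6 x 2 = 0 := ME7a_par hx.1 (by rw [ha, hod]; norm_num)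
  have p4 : cN 6 x 4 = 0 := ME7a_par hx.1 (by rw [ha, hod]; norm_num)
  have p6 : cN 6 x 6 = 0 := ME7a_par hx.1 (by rw [ha, hod]; norm_num)
  have p8 : cN 6 x 8 = 0 := ME7a_par hx.1 (by rw [ha, hod]; norm_num)
  rw [ha] at hq
  refine ⟨hb, ?_, ?_, p0, p2, p4, p6, p8, by omega, ?_⟩
  · have := hx.2.1
    linarith
  · rw [hx.1.1 0 6, ha, hod]
  · have h1 : (cN 6 x 1 + 9 * cN 6 x 3 + 25 * cN 6 x 5 + 49 * cN 6 x 7 : ℤ) = tot := by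
      rw [p2, p4, p6, p8] at hq
      push_cast at hq
      linarith
    exact_mod_cast h1

theorem ME7a_pm (hCTE : CTE_stmt) (hPRD : PRD_stmt) (x y : Vec 8) (q : ℤ) (hb : ∀ i, |x i| ≤ 8)
    (n0 n1 n2 n3 n4 n5 n6 n7 n8 : ℕ)
    (hc : cN 6 x 0 = n0 ∧ cN 6 x 1 = n1 ∧ cN 6 x 2 = n2 ∧ cN 6 x 3 = n3 ∧ cN 6 x 4 = n4 ∧
      cN 6 x 5 = n5 ∧ cN 6 x 6 = n6 ∧ cN 6 x 7 = n7 ∧ cN 6 x 8 = n8)
    (hyb : ∀ i, |y i| ≤ 8)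
    (hy : cN 6 y 0 = n0 ∧ cN 6 y 1 = n1 ∧ cN 6 y 2 = n2 ∧ cN 6 y 3 = n3 ∧ cN 6 y 4 = n4 ∧
      cN 6 y 5 = n5 ∧ cN 6 y 6 = n6 ∧ cN 6 y 7 = n7 ∧ cN 6 y 8 = n8)
    (hq : pN 6 y = q) : pN 6 x = q ∨ pN 6 x = -q := by
  obtain ⟨y0, y1, y2, y3, y4, y5, y6, y7, y8⟩ := hy
  obtain ⟨x0, x1, x2, x3, x4, x5, x6, x7, x8⟩ := hc
  rw [← hq]
  refine hPRD.2.2 6 x y fun v => ?_
  by_cases hv : v < 0 ∨ 8 < v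
  · rw [(hCTE 6 x (by norm_num) hb).2.2.1 v hv, (hCTE 6 y (by norm_num) hyb).2.2.1 v hv]
  · push Not at hv
    obtain ⟨hv1, hv2⟩ := hv
    interval_cases v
    · rw [x0, y0]
    · rw [x1, y1]
    · rw [x2, y2]
    · rw [x3, y3]
    · rw [x4, y4]
    · rw [x5, y5]
    · rw [x6, y6]
    · rw [x7, y7]
    · rw [x8, y8]

theorem ME7a_k10 (hREP : REP_stmt) (hCTE : CTE_stmt) (hPRD : PRD_stmt) (hCLQ : CLQ_stmt)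
    (x : Vec 8) (hx : x ∈ XE7 1) (ha : x 6 = 0) : x ∈ VE R7 1 := by
  obtain ⟨hb, h7, p1, p3, p5, p7, hsum, hq⟩ := ME7a_ev hCTE (by norm_num) hx ha 0 (by norm_num)
    (by norm_num) 8 (by norm_num)
  have f8 : cN 6 x 8 = 0 := by omega
  have f6 : cN 6 x 6 = 0 := by omega
  have f4 : cN 6 x 4 = 0 := by omega
  have f0 : cN 6 x 0 = 4 := by omega
  have f2 : cN 6 x 2 = 2 := by omega
  have hs : cN 6 x 0 = 4 ∧ cN 6 x 1 = 0 ∧ cN 6 x 2 = 2 ∧ cN 6 x 3 = 0 ∧ cN 6 x 4 = 0 ∧ cN 6 x 5 = 0 ∧ cN 6 x 6 = 0 ∧ cN 6 x 7 = 0 ∧ cN 6 x 8 = 0 :=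
    ⟨f0, p1, f2, p3, f4, p5, f6, p7, f8⟩
  exact ME7a_fin hREP hCTE hPRD hCLQ [![2, 2, 0, 0, 0, 0, 0, 0]]
    x ![2, 2, 0, 0, 0, 0, 0, 0] 1 4 0 2 0 0 0 0 0 0 hx.1 hb ha h7 hs
    (Or.inr (Or.inl (by rw [hs.1]; norm_num))) (by decide +kernel)

theorem ME7a_k11 (hREP : REP_stmt) (hCTE : CTE_stmt) (hPRD : PRD_stmt) (hCLQ : CLQ_stmt)
    (x : Vec 8) (hx : x ∈ XE7 1) (ha : x 6 = 1) : x ∈ VE R7 1 := by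
  obtain ⟨hb, h7, hodd, p0, p2, p4, p6, p8, hsum, hq⟩ := ME7a_od hCTE (by norm_num) hx ha (-1)
    (by norm_num) (by norm_num) 6 (by norm_num)
  have f7 : cN 6 x 7 = 0 := by omega
  have f5 : cN 6 x 5 = 0 := by omega
  have f3 : cN 6 x 3 = 0 := by omega
  have f1 : cN 6 x 1 = 6 := by omega
  have hs : cN 6 x 0 = 0 ∧ cN 6 x 1 = 6 ∧ cN 6 x 2 = 0 ∧ cN 6 x 3 = 0 ∧ cN 6 x 4 = 0 ∧ cN 6 x 5 = 0 ∧ cN 6 x 6 = 0 ∧ cN 6 x 7 = 0 ∧ cN 6 x 8 = 0 :=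
    ⟨p0, f1, p2, f3, p4, f5, p6, f7, p8⟩
  exact ME7a_fin hREP hCTE hPRD hCLQ [![1, 1, 1, 1, 1, -1, 1, -1]]
    x ![1, 1, 1, 1, 1, -1, 1, -1] 1 0 6 0 0 0 0 0 0 0 hx.1 hb ha h7 hs
    (Or.inl hodd) (by decide +kernel)

theorem ME7a_k12 (hREP : REP_stmt) (hCTE : CTE_stmt) (hPRD : PRD_stmt) (hCLQ : CLQ_stmt)
    (x : Vec 8) (hx : x ∈ XE7 1) (ha : x 6 = 2) : x ∈ VE R7 1 := by
  obtain ⟨hb, h7, p1, p3, p5, p7, hsum, hq⟩ := ME7a_ev hCTE (by norm_num) hx ha (-2) (by norm_num)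
    (by norm_num) 0 (by norm_num)
  have f8 : cN 6 x 8 = 0 := by omega
  have f6 : cN 6 x 6 = 0 := by omega
  have f4 : cN 6 x 4 = 0 := by omega
  have f0 : cN 6 x 0 = 6 := by omega
  have f2 : cN 6 x 2 = 0 := by omega
  have hs : cN 6 x 0 = 6 ∧ cN 6 x 1 = 0 ∧ cN 6 x 2 = 0 ∧ cN 6 x 3 = 0 ∧ cN 6 x 4 = 0 ∧ cN 6 x 5 = 0 ∧ cN 6 x 6 = 0 ∧ cN 6 x 7 = 0 ∧ cN 6 x 8 = 0 :=
    ⟨f0, p1, f2, p3, f4, p5, f6, p7, f8⟩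
  exact ME7a_fin hREP hCTE hPRD hCLQ [![0, 0, 0, 0, 0, 0, 2, -2]]
    x ![0, 0, 0, 0, 0, 0, 2, -2] 1 6 0 0 0 0 0 0 0 0 hx.1 hb ha h7 hs
    (Or.inr (Or.inl (by rw [hs.1]; norm_num))) (by decide +kernel)

theorem ME7a_k1 (hREP : REP_stmt) (hCTE : CTE_stmt) (hPRD : PRD_stmt) (hCLQ : CLQ_stmt)
    (x : Vec 8) (hx : x ∈ XE7 1) (h0 : 0 ≤ x 6) : x ∈ VE R7 1 := by
  obtain ⟨-, -, hq⟩ := ME7a_num hCTE (by norm_num) hx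
  push_cast at hq
  have hle : x 6 ≤ 2 := by nlinarith
  rcases (show x 6 = 0 ∨ x 6 = 1 ∨ x 6 = 2 by omega) with ha | ha | ha
  · exact ME7a_k10 hREP hCTE hPRD hCLQ x hx ha
  · exact ME7a_k11 hREP hCTE hPRD hCLQ x hx ha
  · exact ME7a_k12 hREP hCTE hPRD hCLQ x hx ha

theorem ME7a_k20 (hREP : REP_stmt) (hCTE : CTE_stmt) (hPRD : PRD_stmt) (hCLQ : CLQ_stmt)
    (x : Vec 8) (hx : x ∈ XE7 2) (ha : x 6 = 0) : x ∈ VE R7 2 := by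
  obtain ⟨hb, h7, p1, p3, p5, p7, hsum, hq⟩ := ME7a_ev hCTE (by norm_num) hx ha 0 (by norm_num)
    (by norm_num) 16 (by norm_num)
  have f8 : cN 6 x 8 = 0 := by omega
  have f6 : cN 6 x 6 = 0 := by omega
  rcases (show cN 6 x 4 = 0 ∨ cN 6 x 4 = 1 by omega) with f4 | f4
  · have f0 : cN 6 x 0 = 2 := by omega
    have f2 : cN 6 x 2 = 4 := by omega
    have hs : cN 6 x 0 = 2 ∧ cN 6 x 1 = 0 ∧ cN 6 x 2 = 4 ∧ cN 6 x 3 = 0 ∧ cN 6 x 4 = 0 ∧ cN 6 x 5 = 0 ∧ cN 6 x 6 = 0 ∧ cN 6 x 7 = 0 ∧ cN 6 x 8 = 0 :=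
      ⟨f0, p1, f2, p3, f4, p5, f6, p7, f8⟩
    exact ME7a_fin hREP hCTE hPRD hCLQ [![2, 2, 0, 0, 0, 0, 0, 0], ![0, 0, 2, 2, 0, 0, 0, 0]]
      x ![2, 2, 2, 2, 0, 0, 0, 0] 2 2 0 4 0 0 0 0 0 0 hx.1 hb ha h7 hs
      (Or.inr (Or.inl (by rw [hs.1]; norm_num))) (by decide +kernel)
  · have f0 : cN 6 x 0 = 5 := by omega
    have f2 : cN 6 x 2 = 0 := by omega
    have hs : cN 6 x 0 = 5 ∧ cN 6 x 1 = 0 ∧ cN 6 x 2 = 0 ∧ cN 6 x 3 = 0 ∧ cN 6 x 4 = 1 ∧ cN 6 x 5 = 0 ∧ cN 6 x 6 = 0 ∧ cN 6 x 7 = 0 ∧ cN 6 x 8 = 0 :=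
      ⟨f0, p1, f2, p3, f4, p5, f6, p7, f8⟩
    exact ME7a_fin hREP hCTE hPRD hCLQ [![2, 2, 0, 0, 0, 0, 0, 0], ![2, -2, 0, 0, 0, 0, 0, 0]]
      x ![4, 0, 0, 0, 0, 0, 0, 0] 2 5 0 0 0 1 0 0 0 0 hx.1 hb ha h7 hs
      (Or.inr (Or.inl (by rw [hs.1]; norm_num))) (by decide +kernel)

theorem ME7a_k21 (hREP : REP_stmt) (hCTE : CTE_stmt) (hPRD : PRD_stmt) (hCLQ : CLQ_stmt)
    (x : Vec 8) (hx : x ∈ XE7 2) (ha : x 6 = 1) : x ∈ VE R7 2 := by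
  obtain ⟨hb, h7, hodd, p0, p2, p4, p6, p8, hsum, hq⟩ := ME7a_od hCTE (by norm_num) hx ha (-1)
    (by norm_num) (by norm_num) 14 (by norm_num)
  have f7 : cN 6 x 7 = 0 := by omega
  have f5 : cN 6 x 5 = 0 := by omega
  rcases (show cN 6 x 3 = 0 ∨ cN 6 x 3 = 1 by omega) with f3 | f3
  · exfalso
    omega
  · have f1 : cN 6 x 1 = 5 := by omega
    have hs : cN 6 x 0 = 0 ∧ cN 6 x 1 = 5 ∧ cN 6 x 2 = 0 ∧ cN 6 x 3 = 1 ∧ cN 6 x 4 = 0 ∧ cN 6 x 5 = 0 ∧ cN 6 x 6 = 0 ∧ cN 6 x 7 = 0 ∧ cN 6 x 8 = 0 :=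
      ⟨p0, f1, p2, f3, p4, f5, p6, f7, p8⟩
    exact ME7a_fin hREP hCTE hPRD hCLQ [![2, 2, 0, 0, 0, 0, 0, 0], ![1, -1, 1, 1, 1, 1, 1, -1]]
      x ![3, 1, 1, 1, 1, 1, 1, -1] 2 0 5 0 1 0 0 0 0 0 hx.1 hb ha h7 hs
      (Or.inl hodd) (by decide +kernel)

theorem ME7a_k22 (hREP : REP_stmt) (hCTE : CTE_stmt) (hPRD : PRD_stmt) (hCLQ : CLQ_stmt)
    (x : Vec 8) (hx : x ∈ XE7 2) (ha : x 6 = 2) : x ∈ VE R7 2 := by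
  obtain ⟨hb, h7, p1, p3, p5, p7, hsum, hq⟩ := ME7a_ev hCTE (by norm_num) hx ha (-2) (by norm_num)
    (by norm_num) 8 (by norm_num)
  have f8 : cN 6 x 8 = 0 := by omega
  have f6 : cN 6 x 6 = 0 := by omega
  have f4 : cN 6 x 4 = 0 := by omega
  have f0 : cN 6 x 0 = 4 := by omega
  have f2 : cN 6 x 2 = 2 := by omega
  have hs : cN 6 x 0 = 4 ∧ cN 6 x 1 = 0 ∧ cN 6 x 2 = 2 ∧ cN 6 x 3 = 0 ∧ cN 6 x 4 = 0 ∧ cN 6 x 5 = 0 ∧ cN 6 x 6 = 0 ∧ cN 6 x 7 = 0 ∧ cN 6 x 8 = 0 :=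
    ⟨f0, p1, f2, p3, f4, p5, f6, p7, f8⟩
  exact ME7a_fin hREP hCTE hPRD hCLQ [![2, 2, 0, 0, 0, 0, 0, 0], ![0, 0, 0, 0, 0, 0, 2, -2]]
    x ![2, 2, 0, 0, 0, 0, 2, -2] 2 4 0 2 0 0 0 0 0 0 hx.1 hb ha h7 hs
    (Or.inr (Or.inl (by rw [hs.1]; norm_num))) (by decide +kernel)

theorem ME7a_k2 (hREP : REP_stmt) (hCTE : CTE_stmt) (hPRD : PRD_stmt) (hCLQ : CLQ_stmt)
    (x : Vec 8) (hx : x ∈ XE7 2) (h0 : 0 ≤ x 6) : x ∈ VE R7 2 := by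
  obtain ⟨-, -, hq⟩ := ME7a_num hCTE (by norm_num) hx
  push_cast at hq
  have hle : x 6 ≤ 2 := by nlinarith
  rcases (show x 6 = 0 ∨ x 6 = 1 ∨ x 6 = 2 by omega) with ha | ha | ha
  · exact ME7a_k20 hREP hCTE hPRD hCLQ x hx ha
  · exact ME7a_k21 hREP hCTE hPRD hCLQ x hx ha
  · exact ME7a_k22 hREP hCTE hPRD hCLQ x hx ha

theorem ME7a_k30 (hREP : REP_stmt) (hCTE : CTE_stmt) (hPRD : PRD_stmt) (hCLQ : CLQ_stmt)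
    (x : Vec 8) (hx : x ∈ XE7 3) (ha : x 6 = 0) : x ∈ VE R7 3 := by
  obtain ⟨hb, h7, p1, p3, p5, p7, hsum, hq⟩ := ME7a_ev hCTE (by norm_num) hx ha 0 (by norm_num)
    (by norm_num) 24 (by norm_num)
  have f8 : cN 6 x 8 = 0 := by omega
  have f6 : cN 6 x 6 = 0 := by omega
  rcases (show cN 6 x 4 = 0 ∨ cN 6 x 4 = 1 by omega) with f4 | f4
  · have f0 : cN 6 x 0 = 0 := by omega
    have f2 : cN 6 x 2 = 6 := by omega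
    have hs : cN 6 x 0 = 0 ∧ cN 6 x 1 = 0 ∧ cN 6 x 2 = 6 ∧ cN 6 x 3 = 0 ∧ cN 6 x 4 = 0 ∧ cN 6 x 5 = 0 ∧ cN 6 x 6 = 0 ∧ cN 6 x 7 = 0 ∧ cN 6 x 8 = 0 :=
      ⟨f0, p1, f2, p3, f4, p5, f6, p7, f8⟩
    have hpm : pN 6 x = 64 ∨ pN 6 x = -64 := ME7a_pm hCTE hPRD x ![2, 2, 2, 2, 2, 2, 0, 0] 64 hb
      0 0 6 0 0 0 0 0 0 hs (by decide +kernel) (by decide +kernel) (by decide +kernel)
    rcases hpm with hpm | hpm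
    · exact ME7a_fin hREP hCTE hPRD hCLQ [![2, 2, 0, 0, 0, 0, 0, 0], ![0, 0, 2, 2, 0, 0, 0, 0], ![0, 0, 0, 0, 2, 2, 0, 0]]
        x ![2, 2, 2, 2, 2, 2, 0, 0] 3 0 0 6 0 0 0 0 0 0 hx.1 hb ha h7 hs
        (Or.inr (Or.inr (hpm.trans (by decide +kernel)))) (by decide +kernel)
    · exact ME7a_fin hREP hCTE hPRD hCLQ [![2, 2, 0, 0, 0, 0, 0, 0], ![0, 0, 2, 2, 0, 0, 0, 0], ![0, 0, 0, 0, 2, -2, 0, 0]]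
        x ![2, 2, 2, 2, 2, -2, 0, 0] 3 0 0 6 0 0 0 0 0 0 hx.1 hb ha h7 hs
        (Or.inr (Or.inr (hpm.trans (by decide +kernel)))) (by decide +kernel)
  · have f0 : cN 6 x 0 = 3 := by omega
    have f2 : cN 6 x 2 = 2 := by omega
    have hs : cN 6 x 0 = 3 ∧ cN 6 x 1 = 0 ∧ cN 6 x 2 = 2 ∧ cN 6 x 3 = 0 ∧ cN 6 x 4 = 1 ∧ cN 6 x 5 = 0 ∧ cN 6 x 6 = 0 ∧ cN 6 x 7 = 0 ∧ cN 6 x 8 = 0 :=
      ⟨f0, p1, f2, p3, f4, p5, f6, p7, f8⟩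
    exact ME7a_fin hREP hCTE hPRD hCLQ [![2, 0, 0, 2, 0, 0, 0, 0], ![2, 0, 0, -2, 0, 0, 0, 0], ![0, 2, 2, 0, 0, 0, 0, 0]]
      x ![4, 2, 2, 0, 0, 0, 0, 0] 3 3 0 2 0 1 0 0 0 0 hx.1 hb ha h7 hs
      (Or.inr (Or.inl (by rw [hs.1]; norm_num))) (by decide +kernel)

theorem ME7a_k31 (hREP : REP_stmt) (hCTE : CTE_stmt) (hPRD : PRD_stmt) (hCLQ : CLQ_stmt)
    (x : Vec 8) (hx : x ∈ XE7 3) (ha : x 6 = 1) : x ∈ VE R7 3 := by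
  obtain ⟨hb, h7, hodd, p0, p2, p4, p6, p8, hsum, hq⟩ := ME7a_od hCTE (by norm_num) hx ha (-1)
    (by norm_num) (by norm_num) 22 (by norm_num)
  have f7 : cN 6 x 7 = 0 := by omega
  have f5 : cN 6 x 5 = 0 := by omega
  rcases (show cN 6 x 3 = 0 ∨ cN 6 x 3 = 1 ∨ cN 6 x 3 = 2 by omega) with f3 | f3 | f3
  · exfalso
    omega
  · exfalso
    omega
  · have f1 : cN 6 x 1 = 4 := by omega
    have hs : cN 6 x 0 = 0 ∧ cN 6 x 1 = 4 ∧ cN 6 x 2 = 0 ∧ cN 6 x 3 = 2 ∧ cN 6 x 4 = 0 ∧ cN 6 x 5 = 0 ∧ cN 6 x 6 = 0 ∧ cN 6 x 7 = 0 ∧ cN 6 x 8 = 0 :=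
      ⟨p0, f1, p2, f3, p4, f5, p6, f7, p8⟩
    exact ME7a_fin hREP hCTE hPRD hCLQ [![2, 0, 2, 0, 0, 0, 0, 0], ![0, 2, 0, 2, 0, 0, 0, 0], ![1, 1, -1, -1, 1, -1, 1, -1]]
      x ![3, 3, 1, 1, 1, -1, 1, -1] 3 0 4 0 2 0 0 0 0 0 hx.1 hb ha h7 hs
      (Or.inl hodd) (by decide +kernel)

theorem ME7a_k32 (hREP : REP_stmt) (hCTE : CTE_stmt) (hPRD : PRD_stmt) (hCLQ : CLQ_stmt)
    (x : Vec 8) (hx : x ∈ XE7 3) (ha : x 6 = 2) : x ∈ VE R7 3 := by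
  obtain ⟨hb, h7, p1, p3, p5, p7, hsum, hq⟩ := ME7a_ev hCTE (by norm_num) hx ha (-2) (by norm_num)
    (by norm_num) 16 (by norm_num)
  have f8 : cN 6 x 8 = 0 := by omega
  have f6 : cN 6 x 6 = 0 := by omega
  rcases (show cN 6 x 4 = 0 ∨ cN 6 x 4 = 1 by omega) with f4 | f4
  · have f0 : cN 6 x 0 = 2 := by omega
    have f2 : cN 6 x 2 = 4 := by omega
    have hs : cN 6 x 0 = 2 ∧ cN 6 x 1 = 0 ∧ cN 6 x 2 = 4 ∧ cN 6 x 3 = 0 ∧ cN 6 x 4 = 0 ∧ cN 6 x 5 = 0 ∧ cN 6 x 6 = 0 ∧ cN 6 x 7 = 0 ∧ cN 6 x 8 = 0 :=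
      ⟨f0, p1, f2, p3, f4, p5, f6, p7, f8⟩
    exact ME7a_fin hREP hCTE hPRD hCLQ [![2, 2, 0, 0, 0, 0, 0, 0], ![0, 0, 2, 2, 0, 0, 0, 0], ![0, 0, 0, 0, 0, 0, 2, -2]]
      x ![2, 2, 2, 2, 0, 0, 2, -2] 3 2 0 4 0 0 0 0 0 0 hx.1 hb ha h7 hs
      (Or.inr (Or.inl (by rw [hs.1]; norm_num))) (by decide +kernel)
  · have f0 : cN 6 x 0 = 5 := by omega
    have f2 : cN 6 x 2 = 0 := by omega
    have hs : cN 6 x 0 = 5 ∧ cN 6 x 1 = 0 ∧ cN 6 x 2 = 0 ∧ cN 6 x 3 = 0 ∧ cN 6 x 4 = 1 ∧ cN 6 x 5 = 0 ∧ cN 6 x 6 = 0 ∧ cN 6 x 7 = 0 ∧ cN 6 x 8 = 0 :=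
      ⟨f0, p1, f2, p3, f4, p5, f6, p7, f8⟩
    exact ME7a_fin hREP hCTE hPRD hCLQ [![2, 2, 0, 0, 0, 0, 0, 0], ![2, -2, 0, 0, 0, 0, 0, 0], ![0, 0, 0, 0, 0, 0, 2, -2]]
      x ![4, 0, 0, 0, 0, 0, 2, -2] 3 5 0 0 0 1 0 0 0 0 hx.1 hb ha h7 hs
      (Or.inr (Or.inl (by rw [hs.1]; norm_num))) (by decide +kernel)

theorem ME7a_k33 (hREP : REP_stmt) (hCTE : CTE_stmt) (hPRD : PRD_stmt) (hCLQ : CLQ_stmt)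
    (x : Vec 8) (hx : x ∈ XE7 3) (ha : x 6 = 3) : x ∈ VE R7 3 := by
  obtain ⟨hb, h7, hodd, p0, p2, p4, p6, p8, hsum, hq⟩ := ME7a_od hCTE (by norm_num) hx ha (-3)
    (by norm_num) (by norm_num) 6 (by norm_num)
  have f7 : cN 6 x 7 = 0 := by omega
  have f5 : cN 6 x 5 = 0 := by omega
  have f3 : cN 6 x 3 = 0 := by omega
  have f1 : cN 6 x 1 = 6 := by omega
  have hs : cN 6 x 0 = 0 ∧ cN 6 x 1 = 6 ∧ cN 6 x 2 = 0 ∧ cN 6 x 3 = 0 ∧ cN 6 x 4 = 0 ∧ cN 6 x 5 = 0 ∧ cN 6 x 6 = 0 ∧ cN 6 x 7 = 0 ∧ cN 6 x 8 = 0 :=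
    ⟨p0, f1, p2, f3, p4, f5, p6, f7, p8⟩
  exact ME7a_fin hREP hCTE hPRD hCLQ [![1, 1, 1, 1, -1, 1, 1, -1], ![1, 1, -1, -1, 1, -1, 1, -1], ![-1, -1, 1, 1, 1, -1, 1, -1]]
    x ![1, 1, 1, 1, 1, -1, 3, -3] 3 0 6 0 0 0 0 0 0 0 hx.1 hb ha h7 hs
    (Or.inl hodd) (by decide +kernel)

theorem ME7a_k3 (hREP : REP_stmt) (hCTE : CTE_stmt) (hPRD : PRD_stmt) (hCLQ : CLQ_stmt)
    (x : Vec 8) (hx : x ∈ XE7 3) (h0 : 0 ≤ x 6) : x ∈ VE R7 3 := by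
  obtain ⟨-, -, hq⟩ := ME7a_num hCTE (by norm_num) hx
  push_cast at hq
  have hle : x 6 ≤ 3 := by nlinarith
  rcases (show x 6 = 0 ∨ x 6 = 1 ∨ x 6 = 2 ∨ x 6 = 3 by omega) with ha | ha | ha | ha
  · exact ME7a_k30 hREP hCTE hPRD hCLQ x hx ha
  · exact ME7a_k31 hREP hCTE hPRD hCLQ x hx ha
  · exact ME7a_k32 hREP hCTE hPRD hCLQ x hx ha
  · exact ME7a_k33 hREP hCTE hPRD hCLQ x hx ha

theorem ME7a_dpneg (x : Vec 8) : dp (-x) (-x) = dp x x := by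
  unfold dp
  refine Finset.sum_congr rfl fun i _ => ?_
  rw [Pi.neg_apply, neg_mul_neg]

/-- it is enough to treat the vectors with `0 ≤ x 6` -/
theorem ME7a_wlog (hELB : ELB_stmt) {k : ℕ} (h : ∀ x ∈ XE7 k, 0 ≤ x 6 → x ∈ VE R7 k) :
    ∀ x ∈ XE7 k, x ∈ VE R7 k := by
  intro x hx
  rcases le_total 0 (x 6) with h0 | h0
  · exact h x hx h0
  · have h1 : -x ∈ XE7 k := by
      refine ⟨(hELB.1 x x hx.1 hx.1).2.2, ?_, ?_⟩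
      · rw [Pi.neg_apply, Pi.neg_apply, ← neg_add, hx.2.1, neg_zero]
      · rw [ME7a_dpneg]
        exact hx.2.2
    have h2 := h (-x) h1 (by rw [Pi.neg_apply]; omega)
    have h3 := (hELB.2.2.2.1 k (-x)).2.1 h2
    rwa [neg_neg] at h3

theorem ME7a (hREP : REP_stmt) (hCTE : CTE_stmt) (hPRD : PRD_stmt) (hCLQ : CLQ_stmt)
    (hELB : ELB_stmt) : ME7a_stmt := by
  intro k hk1 hk3 x hx
  obtain rfl | rfl | rfl : k = 1 ∨ k = 2 ∨ k = 3 := by omega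
  · exact ME7a_wlog hELB (ME7a_k1 hREP hCTE hPRD hCLQ) x hx
  · exact ME7a_wlog hELB (ME7a_k2 hREP hCTE hPRD hCLQ) x hx
  · exact ME7a_wlog hELB (ME7a_k3 hREP hCTE hPRD hCLQ) x hx

end Pool.Agent.SOL
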