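import Pool.Agent.helper1.SOL.SpecN

/-!
# Row sol:LF4N: strongly orthogonal sums of F4, light version (natural number digits)
-/

set_option autoImplicit false

namespace Pool.Agent.SOL

open Pool.Agent.helper54.SOG Finset

open scoped BigOperators

/-! ### The dot product and strong orthogonality -/

theorem F4NL_dp4 (x y : Vec 4) : dp x y = x 0 * y 0 + x 1 * y 1 + x 2 * y 2 + x 3 * y 3 := by
  unfold dp
  rw [Fin.sum_univ_four]

theorem F4NL_sq4 (x : ℤ) : x * x % 4 = x % 2 := by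
  rcases Int.even_or_odd' x with ⟨k, h | h⟩
  · have e : x * x = 4 * (k * k) := by rw [h]; ring
    omega
  · have e : x * x = 4 * (k * k + k) + 1 := by rw [h]; ring
    omega

theorem F4NL_sq8 (x : ℤ) (hx : x % 2 = 1) : x * x % 8 = 1 := by
  rcases Int.even_or_odd' x with ⟨k, h | h⟩
  · omega
  · have e : x * x = 4 * (k * (k + 1)) + 1 := by rw [h]; ring
    obtain ⟨m, hm⟩ := Int.even_mul_succ_self k
    omega

theorem F4NL_all (x : Vec 4) (P : ℤ → Prop) (h0 : P (x 0)) (h1 : P (x 1)) (h2 : P (x 2))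
    (h3 : P (x 3)) : ∀ i, P (x i) := by
  intro i
  fin_cases i
  · exact h0
  · exact h1
  · exact h2
  · exact h3

theorem F4NL_n4 (x : Vec 4) (h : dp x x = 4) : (∀ i, x i % 2 = 0) ∨ (∀ i, x i % 2 = 1) := by
  rw [F4NL_dp4] at h
  have a0 := F4NL_sq4 (x 0)
  have a1 := F4NL_sq4 (x 1)
  have a2 := F4NL_sq4 (x 2)
  have a3 := F4NL_sq4 (x 3)
  by_cases hx : x 0 % 2 = 0
  · left
    exact F4NL_all x (fun z => z % 2 = 0) hx (by omega) (by omega) (by omega)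
  · right
    exact F4NL_all x (fun z => z % 2 = 1) (by omega) (by omega) (by omega) (by omega)

theorem F4NL_n8 (x : Vec 4) (h : dp x x = 8) : ∀ i, x i % 2 = 0 := by
  rw [F4NL_dp4] at h
  have a0 := F4NL_sq4 (x 0)
  have a1 := F4NL_sq4 (x 1)
  have a2 := F4NL_sq4 (x 2)
  have a3 := F4NL_sq4 (x 3)
  by_cases hx : x 0 % 2 = 0
  · exact F4NL_all x (fun z => z % 2 = 0) hx (by omega) (by omega) (by omega)
  · have b0 := F4NL_sq8 (x 0) (by omega)
    have b1 := F4NL_sq8 (x 1) (by omega)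
    have b2 := F4NL_sq8 (x 2) (by omega)
    have b3 := F4NL_sq8 (x 3) (by omega)
    omega

theorem F4NL_par (x : Vec 4) (hx : x ∈ RF4) : (∀ i, x i % 2 = 0) ∨ (∀ i, x i % 2 = 1) := by
  rcases hx with hx | hx
  · exact F4NL_n4 x hx
  · exact Or.inl hx.2

theorem F4NL_mul2 (a b : ℤ) (h : a % 2 = 0) : a * b % 2 = 0 := by
  rw [Int.mul_emod, h, zero_mul, Int.zero_emod]

theorem F4NL_mul2' (a b : ℤ) (h : b % 2 = 0) : a * b % 2 = 0 := by
  rw [mul_comm]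
  exact F4NL_mul2 b a h

theorem F4NL_mul1 (a b : ℤ) (h : a % 2 = 1) (h' : b % 2 = 1) : a * b % 2 = 1 := by
  rw [Int.mul_emod, h, h']
  rfl

theorem F4NL_mul4 (a b : ℤ) (h : a % 2 = 0) (h' : b % 2 = 0) : a * b % 4 = 0 := by
  obtain ⟨k, hk⟩ := Int.dvd_of_emod_eq_zero h
  obtain ⟨m, hm⟩ := Int.dvd_of_emod_eq_zero h'
  have e : a * b = 4 * (k * m) := by rw [hk, hm]; ring
  omega

theorem F4NL_dpe (x y : Vec 4) (hx : x ∈ RF4) (hy : y ∈ RF4) : dp x y % 2 = 0 := by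
  rw [F4NL_dp4]
  rcases F4NL_par x hx with h | h
  · have a0 := F4NL_mul2 _ (y 0) (h 0)
    have a1 := F4NL_mul2 _ (y 1) (h 1)
    have a2 := F4NL_mul2 _ (y 2) (h 2)
    have a3 := F4NL_mul2 _ (y 3) (h 3)
    omega
  · rcases F4NL_par y hy with h' | h'
    · have a0 := F4NL_mul2' (x 0) _ (h' 0)
      have a1 := F4NL_mul2' (x 1) _ (h' 1)
      have a2 := F4NL_mul2' (x 2) _ (h' 2)
      have a3 := F4NL_mul2' (x 3) _ (h' 3)
      omega
    · have a0 := F4NL_mul1 _ _ (h 0) (h' 0)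
      have a1 := F4NL_mul1 _ _ (h 1) (h' 1)
      have a2 := F4NL_mul1 _ _ (h 2) (h' 2)
      have a3 := F4NL_mul1 _ _ (h 3) (h' 3)
      omega

theorem F4NL_dpe4 (x y : Vec 4) (hx : ∀ i, x i % 2 = 0) (hy : ∀ i, y i % 2 = 0) :
    dp x y % 4 = 0 := by
  rw [F4NL_dp4]
  have a0 := F4NL_mul4 _ _ (hx 0) (hy 0)
  have a1 := F4NL_mul4 _ _ (hx 1) (hy 1)
  have a2 := F4NL_mul4 _ _ (hx 2) (hy 2)
  have a3 := F4NL_mul4 _ _ (hx 3) (hy 3)
  omega

theorem F4NL_add (x y : Vec 4) : dp (x + y) (x + y) = dp x x + 2 * dp x y + dp y y := by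
  simp only [F4NL_dp4, Pi.add_apply]
  ring

theorem F4NL_sub (x y : Vec 4) : dp (x - y) (x - y) = dp x x - 2 * dp x y + dp y y := by
  simp only [F4NL_dp4, Pi.sub_apply]
  ring

theorem F4NL_pos (z : Vec 4) (h : z ≠ 0) : 0 < dp z z := by
  have h1 : 0 ≤ dp z z := Finset.sum_nonneg fun i _ => mul_self_nonneg (z i)
  rcases h1.lt_or_eq with h2 | h2
  · exact h2
  · exfalso
    apply h
    funext i
    have h3 := (Finset.sum_eq_zero_iff_of_nonneg (fun i _ => mul_self_nonneg (z i))).mp h2.symm i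
      (Finset.mem_univ i)
    exact mul_self_eq_zero.mp h3

theorem F4NL_so (x y : Vec 4) (hx : x ∈ RF4) (hy : y ∈ RF4) (hxy : x ≠ y) :
    (x + y ≠ 0 ∧ x + y ∉ RF4 ∧ x - y ∉ RF4) ↔ (dp x y = 0 ∧ ¬ (dp x x = 4 ∧ dp y y = 4)) := by
  have hin4 : ∀ z : Vec 4, dp z z = 4 → z ∈ RF4 := fun z hz => Or.inl hz
  have hin8 : ∀ z : Vec 4, dp z z = 8 → z ∈ RF4 := fun z hz => Or.inr ⟨hz, F4NL_n8 z hz⟩
  have hout : ∀ z : Vec 4, z ∈ RF4 → dp z z = 4 ∨ dp z z = 8 := fun z hz => hz.imp id And.left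
  have hp := F4NL_add x y
  have hm := F4NL_sub x y
  have he := F4NL_dpe x y hx hy
  constructor
  · rintro ⟨h1, h2, h3⟩
    have p1 := F4NL_pos _ h1
    have p2 := F4NL_pos _ (sub_ne_zero.mpr hxy)
    have q1 : dp (x + y) (x + y) ≠ 4 := fun h => h2 (hin4 _ h)
    have q2 : dp (x + y) (x + y) ≠ 8 := fun h => h2 (hin8 _ h)
    have q3 : dp (x - y) (x - y) ≠ 4 := fun h => h3 (hin4 _ h)
    have q4 : dp (x - y) (x - y) ≠ 8 := fun h => h3 (hin8 _ h)
    rcases hx with hx | ⟨hx, hx'⟩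
    · rcases hy with hy | ⟨hy, hy'⟩
      · omega
      · omega
    · rcases hy with hy | ⟨hy, hy'⟩
      · omega
      · have h4 := F4NL_dpe4 x y hx' hy'
        omega
  · rintro ⟨h1, h2⟩
    have hx1 := hout x hx
    have hy1 := hout y hy
    have hn : 12 ≤ dp (x + y) (x + y) ∧ 12 ≤ dp (x - y) (x - y) := by omega
    refine ⟨?_, ?_, ?_⟩
    · intro h
      have h3 : dp (x + y) (x + y) = 0 := by
        rw [h, F4NL_dp4]
        rfl
      omega
    · intro h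
      have := hout _ h
      omega
    · intro h
      have := hout _ h
      omega

/-! ### Digits -/

/-- four digits -/
abbrev F4NL_T : Type := ℕ × ℕ × ℕ × ℕ

/-- the vector with the digits `t` and offset `o` -/
def F4NL_f (o : ℤ) (t : F4NL_T) : Vec 4 :=
  ![(t.1 : ℤ) - o, (t.2.1 : ℤ) - o, (t.2.2.1 : ℤ) - o, (t.2.2.2 : ℤ) - o]

def F4NL_d (a b : F4NL_T) : ℕ :=
  Nat.add (Nat.add (Nat.add (Nat.mul a.1 b.1) (Nat.mul a.2.1 b.2.1)) (Nat.mul a.2.2.1 b.2.2.1))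
    (Nat.mul a.2.2.2 b.2.2.2)

def F4NL_s (a : F4NL_T) : ℕ := Nat.add (Nat.add (Nat.add a.1 a.2.1) a.2.2.1) a.2.2.2

/-- norm `4` -/
def F4NL_sh (a : F4NL_T) : Bool := Nat.beq (Nat.add (F4NL_d a a) 12) (Nat.mul 4 (F4NL_s a))

/-- norm `8` -/
def F4NL_lo (a : F4NL_T) : Bool := Nat.beq (Nat.add (F4NL_d a a) 8) (Nat.mul 4 (F4NL_s a))

/-- orthogonal and not both short -/
def F4NL_r (a b : F4NL_T) : Bool :=
  and (Nat.beq (Nat.add (F4NL_d a b) 16) (Nat.mul 2 (Nat.add (F4NL_s a) (F4NL_s b))))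
    (or (F4NL_lo a) (F4NL_lo b))

def F4NL_p (a b : F4NL_T) : F4NL_T :=
  (Nat.add a.1 b.1, Nat.add a.2.1 b.2.1, Nat.add a.2.2.1 b.2.2.1, Nat.add a.2.2.2 b.2.2.2)

def F4NL_step (g : List F4NL_T → List F4NL_T) : List F4NL_T → List F4NL_T
  | [] => []
  | a :: D => (g (D.filter (F4NL_r a))).map (F4NL_p a) ++ F4NL_step g D

def F4NL_cl : ℕ → List F4NL_T → List F4NL_T
  | 0 => fun _ => [(0, 0, 0, 0)]
  | k + 1 => F4NL_step (F4NL_cl k)

def F4NL_L : List F4NL_T := [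
  (0, 0, 2, 2), (0, 4, 2, 2), (4, 0, 2, 2), (4, 4, 2, 2),
  (0, 2, 0, 2), (0, 2, 4, 2), (4, 2, 0, 2), (4, 2, 4, 2),
  (0, 2, 2, 0), (0, 2, 2, 4), (4, 2, 2, 0), (4, 2, 2, 4),
  (2, 0, 0, 2), (2, 0, 4, 2), (2, 4, 0, 2), (2, 4, 4, 2),
  (2, 0, 2, 0), (2, 0, 2, 4), (2, 4, 2, 0), (2, 4, 2, 4),
  (2, 2, 0, 0), (2, 2, 0, 4), (2, 2, 4, 0), (2, 2, 4, 4),
  (0, 2, 2, 2), (4, 2, 2, 2), (2, 0, 2, 2), (2, 4, 2, 2),
  (2, 2, 0, 2), (2, 2, 4, 2), (2, 2, 2, 0), (2, 2, 2, 4),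
  (1, 1, 1, 1), (1, 1, 1, 3), (1, 1, 3, 1), (1, 1, 3, 3),
  (1, 3, 1, 1), (1, 3, 1, 3), (1, 3, 3, 1), (1, 3, 3, 3),
  (3, 1, 1, 1), (3, 1, 1, 3), (3, 1, 3, 1), (3, 1, 3, 3),
  (3, 3, 1, 1), (3, 3, 1, 3), (3, 3, 3, 1), (3, 3, 3, 3)]

theorem F4NL_f_zero : F4NL_f 0 0 = 0 := by
  funext i
  fin_cases i <;> rfl

theorem F4NL_f_add (o p : ℤ) (s t : F4NL_T) :
    F4NL_f (o + p) (s + t) = F4NL_f o s + F4NL_f p t := by
  have e : ∀ a b : ℕ, ((a + b : ℕ) : ℤ) - (o + p) = ((a : ℤ) - o) + ((b : ℤ) - p) := by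
    intro a b
    push_cast
    ring
  funext i
  fin_cases i
  · exact e s.1 t.1
  · exact e s.2.1 t.2.1
  · exact e s.2.2.1 t.2.2.1
  · exact e s.2.2.2 t.2.2.2

theorem F4NL_f_inj (o : ℤ) : Function.Injective (F4NL_f o) := by
  intro s t h
  have h0 : (s.1 : ℤ) - o = (t.1 : ℤ) - o := congrFun h 0
  have h1 : (s.2.1 : ℤ) - o = (t.2.1 : ℤ) - o := congrFun h 1
  have h2 : (s.2.2.1 : ℤ) - o = (t.2.2.1 : ℤ) - o := congrFun h 2
  have h3 : (s.2.2.2 : ℤ) - o = (t.2.2.2 : ℤ) - o := congrFun h 3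
  ext <;> omega

theorem F4NL_sum (S : Finset F4NL_T) :
    ∑ a ∈ S, F4NL_f 2 a = F4NL_f (2 * (S.card : ℤ)) (∑ a ∈ S, a) := by
  induction S using Finset.induction_on with
  | empty => simpa using F4NL_f_zero.symm
  | insert a S ha ih =>
    rw [Finset.sum_insert ha, Finset.sum_insert ha, ih, Finset.card_insert_of_notMem ha, ← F4NL_f_add]
    congr 1
    push_cast
    ring

theorem F4NL_dpf (a b : F4NL_T) :
    dp (F4NL_f 2 a) (F4NL_f 2 b) = (F4NL_d a b : ℤ) - 2 * (F4NL_s a) - 2 * (F4NL_s b) + 16 := by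
  rw [F4NL_dp4]
  have e1 : F4NL_d a b = a.1 * b.1 + a.2.1 * b.2.1 + a.2.2.1 * b.2.2.1 + a.2.2.2 * b.2.2.2 := rfl
  have e2 : ∀ a : F4NL_T, F4NL_s a = a.1 + a.2.1 + a.2.2.1 + a.2.2.2 := fun _ => rfl
  rw [e1, e2, e2]
  push_cast
  show ((a.1 : ℤ) - 2) * ((b.1 : ℤ) - 2) + ((a.2.1 : ℤ) - 2) * ((b.2.1 : ℤ) - 2) +
    ((a.2.2.1 : ℤ) - 2) * ((b.2.2.1 : ℤ) - 2) + ((a.2.2.2 : ℤ) - 2) * ((b.2.2.2 : ℤ) - 2) = _
  ring

theorem F4NL_sh_iff (a : F4NL_T) : F4NL_sh a = true ↔ dp (F4NL_f 2 a) (F4NL_f 2 a) = 4 := by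
  unfold F4NL_sh
  rw [F4NL_dpf, Nat.beq_eq, Nat.add_eq, Nat.mul_eq]
  omega

theorem F4NL_lo_iff (a : F4NL_T) : F4NL_lo a = true ↔ dp (F4NL_f 2 a) (F4NL_f 2 a) = 8 := by
  unfold F4NL_lo
  rw [F4NL_dpf, Nat.beq_eq, Nat.add_eq, Nat.mul_eq]
  omega

theorem F4NL_in_iff (a : F4NL_T) : F4NL_f 2 a ∈ RF4 ↔ (F4NL_sh a = true ∨ F4NL_lo a = true) := by
  rw [F4NL_sh_iff, F4NL_lo_iff]
  constructor
  · exact fun h => h.imp id And.left
  · exact fun h => h.imp id fun h8 => ⟨h8, F4NL_n8 _ h8⟩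

theorem F4NL_r_comm (a b : F4NL_T) : F4NL_r a b = F4NL_r b a := by
  have e1 : F4NL_d a b = F4NL_d b a := by
    show a.1 * b.1 + a.2.1 * b.2.1 + a.2.2.1 * b.2.2.1 + a.2.2.2 * b.2.2.2 =
      b.1 * a.1 + b.2.1 * a.2.1 + b.2.2.1 * a.2.2.1 + b.2.2.2 * a.2.2.2
    ring
  have e2 : Nat.add (F4NL_s a) (F4NL_s b) = Nat.add (F4NL_s b) (F4NL_s a) := Nat.add_comm _ _
  have e3 : or (F4NL_lo a) (F4NL_lo b) = or (F4NL_lo b) (F4NL_lo a) := Bool.or_comm _ _
  unfold F4NL_r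
  rw [e1, e2, e3]

theorem F4NL_r_iff (a b : F4NL_T) (ha : F4NL_f 2 a ∈ RF4) (hb : F4NL_f 2 b ∈ RF4) (hab : a ≠ b) :
    F4NL_r a b = true ↔ F4NL_f 2 a + F4NL_f 2 b ≠ 0 ∧ F4NL_f 2 a + F4NL_f 2 b ∉ RF4 ∧
      F4NL_f 2 a - F4NL_f 2 b ∉ RF4 := by
  rw [F4NL_so _ _ ha hb (fun h => hab (F4NL_f_inj 2 h)), F4NL_dpf a b]
  unfold F4NL_r
  rw [Bool.and_eq_true, Bool.or_eq_true, Nat.beq_eq, Nat.add_eq, Nat.add_eq, Nat.mul_eq,
    F4NL_lo_iff, F4NL_lo_iff]
  have ha1 : dp (F4NL_f 2 a) (F4NL_f 2 a) = 4 ∨ dp (F4NL_f 2 a) (F4NL_f 2 a) = 8 :=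
    ha.imp id And.left
  have hb1 : dp (F4NL_f 2 b) (F4NL_f 2 b) = 4 ∨ dp (F4NL_f 2 b) (F4NL_f 2 b) = 8 :=
    hb.imp id And.left
  omega

/-! ### Enumeration of the roots -/

theorem F4NL_enum : ∀ a ∈ List.range 5, ∀ b ∈ List.range 5, ∀ c ∈ List.range 5,
    ∀ d ∈ List.range 5, or (F4NL_sh (a, b, c, d)) (F4NL_lo (a, b, c, d)) = true →
      (a, b, c, d) ∈ F4NL_L := by
  decide +kernel

theorem F4NL_L_in : ∀ t ∈ F4NL_L, or (F4NL_sh t) (F4NL_lo t) = true := by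
  decide +kernel

theorem F4NL_nodup : F4NL_L.Nodup := by
  decide +kernel

theorem F4NL_bd (n : ℤ) (h : n * n ≤ 8) : -2 ≤ n ∧ n ≤ 2 := by
  constructor <;> nlinarith

theorem F4NL_mem_L (t : F4NL_T) (ht : t ∈ F4NL_L) : F4NL_f 2 t ∈ RF4 := by
  rw [F4NL_in_iff, ← Bool.or_eq_true]
  exact F4NL_L_in t ht

theorem F4NL_L_mem (x : Vec 4) (hx : x ∈ RF4) : ∃ t ∈ F4NL_L, F4NL_f 2 t = x := by
  have h1 : dp x x ≤ 8 := by
    rcases hx with hx | ⟨hx, _⟩
    · omega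
    · omega
  rw [F4NL_dp4] at h1
  have b0 := F4NL_bd (x 0) (by
    nlinarith [mul_self_nonneg (x 0), mul_self_nonneg (x 1), mul_self_nonneg (x 2), mul_self_nonneg (x 3)])
  have b1 := F4NL_bd (x 1) (by
    nlinarith [mul_self_nonneg (x 0), mul_self_nonneg (x 1), mul_self_nonneg (x 2), mul_self_nonneg (x 3)])
  have b2 := F4NL_bd (x 2) (by
    nlinarith [mul_self_nonneg (x 0), mul_self_nonneg (x 1), mul_self_nonneg (x 2), mul_self_nonneg (x 3)])
  have b3 := F4NL_bd (x 3) (by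
    nlinarith [mul_self_nonneg (x 0), mul_self_nonneg (x 1), mul_self_nonneg (x 2), mul_self_nonneg (x 3)])
  have e : F4NL_f 2 ((x 0 + 2).toNat, (x 1 + 2).toNat, (x 2 + 2).toNat, (x 3 + 2).toNat) = x := by
    funext i
    fin_cases i
    · show ((x 0 + 2).toNat : ℤ) - 2 = x 0
      omega
    · show ((x 1 + 2).toNat : ℤ) - 2 = x 1
      omega
    · show ((x 2 + 2).toNat : ℤ) - 2 = x 2
      omega
    · show ((x 3 + 2).toNat : ℤ) - 2 = x 3
      omega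
  refine ⟨_, ?_, e⟩
  refine F4NL_enum _ (List.mem_range.mpr (by omega)) _ (List.mem_range.mpr (by omega)) _
    (List.mem_range.mpr (by omega)) _ (List.mem_range.mpr (by omega)) ?_
  rw [Bool.or_eq_true, ← F4NL_in_iff, e]
  exact hx

/-! ### Enumeration of the strongly orthogonal sets -/

/-- strongly orthogonal sets in the list model -/
def F4NL_SO (C : List F4NL_T) (k : ℕ) (v : F4NL_T) : Prop :=
  ∃ S : Finset F4NL_T, S.card = k ∧ (∀ a ∈ S, a ∈ C) ∧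
    (∀ a ∈ S, ∀ b ∈ S, a ≠ b → F4NL_r a b = true) ∧ ∑ a ∈ S, a = v

theorem F4NL_first (C : List F4NL_T) : ∀ S : Finset F4NL_T, S.Nonempty → (∀ a ∈ S, a ∈ C) →
    ∃ a D, (a :: D) <:+ C ∧ a ∈ S ∧ ∀ b ∈ S, b ≠ a → b ∈ D := by
  induction C with
  | nil =>
    intro S hS h
    obtain ⟨a, ha⟩ := hS
    exact absurd (h a ha) List.not_mem_nil
  | cons c C ih =>
    intro S hS h
    by_cases hc : c ∈ S
    · refine ⟨c, C, List.suffix_refl _, hc, fun b hb hbc => ?_⟩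
      rcases List.mem_cons.1 (h b hb) with h1 | h1
      · exact absurd h1 hbc
      · exact h1
    · obtain ⟨a, D, h1, h2, h3⟩ := ih S hS (fun a ha => by
        rcases List.mem_cons.1 (h a ha) with h1 | h1
        · rw [h1] at ha
          exact absurd ha hc
        · exact h1)
      exact ⟨a, D, h1.trans (List.suffix_cons _ _), h2, h3⟩

theorem F4NL_step_mem (g : List F4NL_T → List F4NL_T) (v : F4NL_T) : ∀ C : List F4NL_T,
    v ∈ F4NL_step g C ↔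
      ∃ a D, (a :: D) <:+ C ∧ ∃ w ∈ g (D.filter (F4NL_r a)), a + w = v := by
  intro C
  induction C with
  | nil =>
    constructor
    · intro h
      exact absurd h List.not_mem_nil
    · rintro ⟨a, D, h, _⟩
      exact absurd (List.suffix_nil.1 h) (List.cons_ne_nil _ _)
  | cons c C ih =>
    have e : F4NL_step g (c :: C) =
        (g (C.filter (F4NL_r c))).map (F4NL_p c) ++ F4NL_step g C := rfl
    rw [e, List.mem_append, ih]
    constructor
    · rintro (h | ⟨a, D, h1, h2⟩)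
      · obtain ⟨w, hw, h3⟩ := List.mem_map.1 h
        exact ⟨c, C, List.suffix_refl _, w, hw, h3⟩
      · exact ⟨a, D, h1.trans (List.suffix_cons _ _), h2⟩
    · rintro ⟨a, D, h1, w, hw, h2⟩
      rcases List.suffix_cons_iff.1 h1 with h3 | h3
      · left
        obtain ⟨rfl, rfl⟩ := List.cons.inj h3
        exact List.mem_map.2 ⟨w, hw, h2⟩
      · right
        exact ⟨a, D, h3, w, hw, h2⟩

theorem F4NL_cl_iff (k : ℕ) : ∀ (C : List F4NL_T), C.Nodup → ∀ v,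
    v ∈ F4NL_cl k C ↔ F4NL_SO C k v := by
  induction k with
  | zero =>
    intro C _ v
    have e : F4NL_cl 0 C = [0] := rfl
    rw [e, List.mem_singleton]
    constructor
    · rintro rfl
      exact ⟨∅, rfl, fun a ha => absurd ha (Finset.notMem_empty a),
        fun a ha => absurd ha (Finset.notMem_empty a), rfl⟩
    · rintro ⟨S, hS, -, -, h⟩
      rw [Finset.card_eq_zero.1 hS] at h
      exact h.symm
  | succ k ih =>
    intro C hC v
    have e : F4NL_cl (k + 1) C = F4NL_step (F4NL_cl k) C := rfl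
    rw [e, F4NL_step_mem]
    constructor
    · rintro ⟨a, D, hD, w, hw, rfl⟩
      have hn : (a :: D).Nodup := hC.sublist hD.sublist
      rw [ih _ ((List.nodup_cons.1 hn).2.filter _)] at hw
      obtain ⟨S, h1, h2, h3, h4⟩ := hw
      have haS : a ∉ S := by
        intro ha
        exact (List.nodup_cons.1 hn).1 (List.mem_filter.1 (h2 a ha)).1
      refine ⟨insert a S, ?_, ?_, ?_, ?_⟩
      · rw [Finset.card_insert_of_notMem haS, h1]
      · intro b hb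
        rcases Finset.mem_insert.1 hb with rfl | hb
        · exact hD.subset (List.mem_cons_self)
        · exact hD.subset (List.mem_cons_of_mem _ (List.mem_filter.1 (h2 b hb)).1)
      · intro b hb c hc hbc
        rcases Finset.mem_insert.1 hb with hb' | hb'
        · rcases Finset.mem_insert.1 hc with hc' | hc'
          · exact absurd (hb'.trans hc'.symm) hbc
          · rw [hb']
            exact (List.mem_filter.1 (h2 c hc')).2
        · rcases Finset.mem_insert.1 hc with hc' | hc'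
          · rw [hc', F4NL_r_comm]
            exact (List.mem_filter.1 (h2 b hb')).2
          · exact h3 b hb' c hc' hbc
      · rw [Finset.sum_insert haS, h4]
    · rintro ⟨S, h1, h2, h3, h4⟩
      have hne : S.Nonempty := by
        rw [← Finset.card_pos, h1]
        exact Nat.succ_pos k
      obtain ⟨a, D, hD, haS, hb⟩ := F4NL_first C S hne h2
      have hn : (a :: D).Nodup := hC.sublist hD.sublist
      refine ⟨a, D, hD, ∑ b ∈ S.erase a, b, ?_, ?_⟩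
      · rw [ih _ ((List.nodup_cons.1 hn).2.filter _)]
        refine ⟨S.erase a, ?_, ?_, ?_, rfl⟩
        · rw [Finset.card_erase_of_mem haS, h1]
          rfl
        · intro b hbS
          obtain ⟨h5, h6⟩ := Finset.mem_erase.1 hbS
          exact List.mem_filter.2 ⟨hb b h6 h5, h3 a haS b h6 (Ne.symm h5)⟩
        · intro b hbS c hcS
          exact h3 b (Finset.mem_erase.1 hbS).2 c (Finset.mem_erase.1 hcS).2
      · rw [Finset.add_sum_erase S (fun b => b) haS]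
        exact h4

theorem F4NL_sos (k : ℕ) (x : Vec 4) :
    x ∈ sosSums RF4 k ↔ ∃ t ∈ F4NL_cl k F4NL_L, F4NL_f (2 * (k : ℤ)) t = x := by
  have hinj := F4NL_f_inj 2
  constructor
  · rintro ⟨S, h1, ⟨h2, h3⟩, h4⟩
    have hS : (F4NL_L.toFinset.filter fun t => F4NL_f 2 t ∈ S).image (F4NL_f 2) = S := by
      ext y
      rw [Finset.mem_image]
      constructor
      · rintro ⟨t, ht, rfl⟩
        exact (Finset.mem_filter.1 ht).2
      · intro hy
        obtain ⟨t, ht, rfl⟩ := F4NL_L_mem y (h2 y hy)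
        exact ⟨t, Finset.mem_filter.2 ⟨List.mem_toFinset.2 ht, hy⟩, rfl⟩
    have hc : (F4NL_L.toFinset.filter fun t => F4NL_f 2 t ∈ S).card = k := by
      rw [← h1, ← Finset.card_image_of_injective _ hinj, hS]
    refine ⟨∑ t ∈ F4NL_L.toFinset.filter fun t => F4NL_f 2 t ∈ S, t, ?_, ?_⟩
    · rw [F4NL_cl_iff k _ F4NL_nodup]
      refine ⟨F4NL_L.toFinset.filter fun t => F4NL_f 2 t ∈ S, hc, ?_, ?_, rfl⟩
      · intro a ha
        exact List.mem_toFinset.1 (Finset.mem_filter.1 ha).1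
      · intro a ha b hb hab
        obtain ⟨ha1, ha2⟩ := Finset.mem_filter.1 ha
        obtain ⟨hb1, hb2⟩ := Finset.mem_filter.1 hb
        rw [F4NL_r_iff a b (h2 _ ha2) (h2 _ hb2) hab]
        exact h3 _ ha2 _ hb2 fun h => hab (hinj h)
    · have h5 := F4NL_sum (F4NL_L.toFinset.filter fun t => F4NL_f 2 t ∈ S)
      rw [hc] at h5
      rw [← h5, ← h4]
      conv_rhs => rw [← hS]
      rw [Finset.sum_image hinj.injOn]
  · rintro ⟨t, ht, rfl⟩
    rw [F4NL_cl_iff k _ F4NL_nodup] at ht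
    obtain ⟨S, h1, h2, h3, rfl⟩ := ht
    refine ⟨S.image (F4NL_f 2), ?_, ⟨?_, ?_⟩, ?_⟩
    · rw [Finset.card_image_of_injective _ hinj, h1]
    · intro a ha
      obtain ⟨b, hb, rfl⟩ := Finset.mem_image.1 ha
      exact F4NL_mem_L b (h2 b hb)
    · intro a ha b hb hab
      obtain ⟨a', ha', rfl⟩ := Finset.mem_image.1 ha
      obtain ⟨b', hb', rfl⟩ := Finset.mem_image.1 hb
      have hne : a' ≠ b' := fun h => hab (by rw [h])
      rw [← F4NL_r_iff a' b' (F4NL_mem_L a' (h2 a' ha')) (F4NL_mem_L b' (h2 b' hb')) hne]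
      exact h3 a' ha' b' hb' hne
    · rw [Finset.sum_image hinj.injOn, F4NL_sum, h1]

theorem F4NL_ncard (k : ℕ) :
    (sosSums RF4 k).ncard = (F4NL_cl k F4NL_L).toFinset.card := by
  have h : sosSums RF4 k =
      (((F4NL_cl k F4NL_L).toFinset.image (F4NL_f (2 * (k : ℤ))) : Finset (Vec 4)) : Set (Vec 4)) := by
    ext x
    rw [F4NL_sos, Finset.mem_coe, Finset.mem_image]
    constructor
    · rintro ⟨t, ht, h⟩
      exact ⟨t, List.mem_toFinset.2 ht, h⟩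
    · rintro ⟨t, ht, h⟩
      exact ⟨t, List.mem_toFinset.1 ht, h⟩
  rw [h, Set.ncard_coe_finset, Finset.card_image_of_injective _ (F4NL_f_inj _)]

/-! ### Counting by bit masks -/

def F4NL_cnt : List ℕ → ℕ → ℕ → ℕ
  | [], _, n => n
  | c :: l, m, n => cond (Nat.testBit m c) (F4NL_cnt l m n)
      (F4NL_cnt l (Nat.lor m (Nat.shiftLeft 1 c)) (Nat.succ n))

theorem F4NL_cnt_eq (l : List ℕ) : ∀ (m n : ℕ) (s : Finset ℕ),
    (∀ i, Nat.testBit m i = decide (i ∈ s)) → n = s.card →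
      F4NL_cnt l m n = (s ∪ l.toFinset).card := by
  induction l with
  | nil =>
    intro m n s _ hn
    rw [List.toFinset_nil, Finset.union_empty, ← hn]
    rfl
  | cons c l ih =>
    intro m n s hm hn
    have e : F4NL_cnt (c :: l) m n = cond (Nat.testBit m c) (F4NL_cnt l m n)
      (F4NL_cnt l (Nat.lor m (Nat.shiftLeft 1 c)) (Nat.succ n)) := rfl
    rw [e, hm c, List.toFinset_cons]
    by_cases hc : c ∈ s
    · rw [decide_eq_true hc, cond_true, ih m n s hm hn]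
      congr 1
      ext i
      simp only [Finset.mem_union, Finset.mem_insert]
      constructor
      · rintro (h | h)
        · exact Or.inl h
        · exact Or.inr (Or.inr h)
      · rintro (h | h | h)
        · exact Or.inl h
        · exact Or.inl (h ▸ hc)
        · exact Or.inr h
    · rw [decide_eq_false hc, cond_false, ih _ _ (insert c s) ?_ ?_]
      · congr 1
        ext i
        simp only [Finset.mem_union, Finset.mem_insert]
        tauto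
      · intro i
        have e1 : Nat.lor m (Nat.shiftLeft 1 c) = m ||| 1 <<< c := rfl
        rw [e1, Nat.testBit_or, hm i, Nat.one_shiftLeft, Nat.testBit_two_pow]
        simp only [Finset.mem_insert]
        by_cases h1 : i ∈ s <;> by_cases h2 : c = i
        · simp [h1]
        · simp [h1]
        · simp [h2]
        · simp [h1, h2, eq_comm]
      · rw [Finset.card_insert_of_notMem hc, hn]

/-- code in base 13 -/
def F4NL_e (t : F4NL_T) : ℕ :=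
  Nat.add t.1 (Nat.mul 13 (Nat.add t.2.1 (Nat.mul 13 (Nat.add t.2.2.1 (Nat.mul 13 t.2.2.2)))))

/-- all digits less than 13 -/
def F4NL_lt (t : F4NL_T) : Bool :=
  and (and (Nat.ble t.1 12) (Nat.ble t.2.1 12)) (and (Nat.ble t.2.2.1 12) (Nat.ble t.2.2.2 12))

theorem F4NL_lt_iff (t : F4NL_T) :
    F4NL_lt t = true ↔ (t.1 ≤ 12 ∧ t.2.1 ≤ 12) ∧ (t.2.2.1 ≤ 12 ∧ t.2.2.2 ≤ 12) := by
  unfold F4NL_lt
  rw [Bool.and_eq_true, Bool.and_eq_true, Bool.and_eq_true, Nat.ble_eq, Nat.ble_eq, Nat.ble_eq,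
    Nat.ble_eq]

theorem F4NL_card (l : List F4NL_T) (n : ℕ) (h : l.all F4NL_lt = true)
    (hn : F4NL_cnt (l.map F4NL_e) 0 0 = n) : l.toFinset.card = n := by
  rw [F4NL_cnt_eq (l.map F4NL_e) 0 0 ∅ (by intro i; simp) rfl, Finset.empty_union] at hn
  have e : (l.map F4NL_e).toFinset = l.toFinset.image F4NL_e := by
    ext i
    simp
  rw [e, Finset.card_image_of_injOn] at hn
  · exact hn
  · intro s hs t ht hst
    rw [List.all_eq_true] at h
    have hs1 := (F4NL_lt_iff s).1 (h s (List.mem_toFinset.1 hs))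
    have ht1 := (F4NL_lt_iff t).1 (h t (List.mem_toFinset.1 ht))
    have e1 : s.1 + 13 * (s.2.1 + 13 * (s.2.2.1 + 13 * s.2.2.2)) =
        t.1 + 13 * (t.2.1 + 13 * (t.2.2.1 + 13 * t.2.2.2)) := hst
    ext <;> omega

/-! ### The computations -/

def F4NL_dbl (y : F4NL_T) : F4NL_T :=
  (Nat.add (Nat.mul 2 y.1) 4, Nat.add (Nat.mul 2 y.2.1) 4, Nat.add (Nat.mul 2 y.2.2.1) 4,
    Nat.add (Nat.mul 2 y.2.2.2) 4)

theorem F4NL_comp :
    (((F4NL_cl 1 F4NL_L).all F4NL_lt = true ∧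
      F4NL_cnt ((F4NL_cl 1 F4NL_L).map F4NL_e) 0 0 = 48) ∧
    ((F4NL_cl 2 F4NL_L).all F4NL_lt = true ∧
      F4NL_cnt ((F4NL_cl 2 F4NL_L).map F4NL_e) 0 0 = 120) ∧
    ((F4NL_cl 3 F4NL_L).all F4NL_lt = true ∧
      F4NL_cnt ((F4NL_cl 3 F4NL_L).map F4NL_e) 0 0 = 240)) ∧
    (∀ t ∈ F4NL_cl 4 F4NL_L, ∃ y ∈ F4NL_L, F4NL_lo y = true ∧ t = F4NL_dbl y) ∧
    (∀ y ∈ F4NL_L, F4NL_lo y = true → F4NL_dbl y ∈ F4NL_cl 4 F4NL_L) ∧
    F4NL_cl 5 F4NL_L = [] := by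
  decide +kernel

theorem F4NL_dbl_f (y : F4NL_T) : F4NL_f 8 (F4NL_dbl y) = F4NL_f 2 y + F4NL_f 2 y := by
  have e : ∀ a : ℕ, ((Nat.add (Nat.mul 2 a) 4 : ℕ) : ℤ) - 8 = ((a : ℤ) - 2) + ((a : ℤ) - 2) := by
    intro a
    have e1 : Nat.add (Nat.mul 2 a) 4 = 2 * a + 4 := rfl
    rw [e1]
    push_cast
    ring
  funext i
  fin_cases i
  · exact e y.1
  · exact e y.2.1
  · exact e y.2.2.1
  · exact e y.2.2.2

theorem F4NL_neg (x : Vec 4) (hx : x ∈ RF4) : -x ∈ RF4 := by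
  have e : dp (-x) (-x) = dp x x := by
    unfold dp
    exact Finset.sum_congr rfl fun i _ => by rw [Pi.neg_apply]; ring
  rcases hx with hx | ⟨hx, hx'⟩
  · exact Or.inl (e.trans hx)
  · refine Or.inr ⟨e.trans hx, fun i => ?_⟩
    have := hx' i
    rw [Pi.neg_apply]
    omega

theorem F4NL_sneg (k : ℕ) (x : Vec 4) (hx : x ∈ sosSums RF4 k) : -x ∈ sosSums RF4 k := by
  obtain ⟨S, h1, ⟨h2, h3⟩, rfl⟩ := hx
  have hinj : Function.Injective (fun y : Vec 4 => -y) := neg_injective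
  have hout : ∀ z : Vec 4, z ∉ RF4 → -z ∉ RF4 := by
    intro z hz h
    have := F4NL_neg _ h
    rw [neg_neg] at this
    exact hz this
  refine ⟨S.image (fun y => -y), ?_, ⟨?_, ?_⟩, ?_⟩
  · rw [Finset.card_image_of_injective _ hinj, h1]
  · intro a ha
    obtain ⟨b, hb, rfl⟩ := Finset.mem_image.1 ha
    exact F4NL_neg b (h2 b hb)
  · intro a ha b hb hab
    obtain ⟨a', ha', rfl⟩ := Finset.mem_image.1 ha
    obtain ⟨b', hb', rfl⟩ := Finset.mem_image.1 hb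
    obtain ⟨h4, h5, h6⟩ := h3 a' ha' b' hb' fun h => hab (by rw [h])
    have e1 : -a' + -b' = -(a' + b') := by abel
    have e2 : -a' - -b' = -(a' - b') := by abel
    show -a' + -b' ≠ 0 ∧ -a' + -b' ∉ RF4 ∧ -a' - -b' ∉ RF4
    rw [e1, e2]
    exact ⟨neg_ne_zero.2 h4, hout _ h5, hout _ h6⟩
  · rw [Finset.sum_image hinj.injOn, Finset.sum_neg_distrib]

/-- no sum of a nonempty strongly orthogonal set vanishes -/
theorem F4NL_zero (k : ℕ) (hk : 1 ≤ k) : (0 : Vec 4) ∉ sosSums RF4 k := by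
  rintro ⟨S, h1, ⟨h2, h3⟩, h4⟩
  obtain ⟨a, ha⟩ : S.Nonempty := by
    rw [← Finset.card_pos]
    omega
  have h5 : dp a (∑ b ∈ S, b) = dp a a := by
    have e : dp a (∑ b ∈ S, b) = ∑ b ∈ S, dp a b := by
      unfold dp
      rw [Finset.sum_comm]
      refine Finset.sum_congr rfl fun i _ => ?_
      rw [Finset.sum_apply, Finset.mul_sum]
    rw [e]
    refine Finset.sum_eq_single_of_mem a ha fun b hb hba => ?_
    exact ((F4NL_so a b (h2 a ha) (h2 b hb) hba.symm).1 (h3 a ha b hb hba.symm)).1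
  rw [h4] at h5
  have h6 : dp a (0 : Vec 4) = 0 := by
    rw [F4NL_dp4]
    simp
  have h7 : dp a a = 4 ∨ dp a a = 8 := (h2 a ha).imp id And.left
  omega

theorem F4NL : F4N_stmt := by
  refine ⟨(F4NL_ncard 1).trans (F4NL_card _ _ F4NL_comp.1.1.1 F4NL_comp.1.1.2),
    (F4NL_ncard 2).trans (F4NL_card _ _ F4NL_comp.1.2.1.1 F4NL_comp.1.2.1.2),
    (F4NL_ncard 3).trans (F4NL_card _ _ F4NL_comp.1.2.2.1 F4NL_comp.1.2.2.2), ?_, ?_, ?_⟩
  · intro x
    rw [F4NL_sos]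
    have e8 : (2 * ((4 : ℕ) : ℤ)) = 8 := by norm_num
    rw [e8]
    constructor
    · rintro ⟨t, ht, rfl⟩
      obtain ⟨y, _, h8, rfl⟩ := F4NL_comp.2.1 t ht
      have h9 := (F4NL_lo_iff y).1 h8
      exact ⟨F4NL_f 2 y, h9, F4NL_n8 _ h9, F4NL_dbl_f y⟩
    · rintro ⟨y, h8, hev, rfl⟩
      obtain ⟨t, ht, rfl⟩ := F4NL_L_mem y (Or.inr ⟨h8, hev⟩)
      exact ⟨F4NL_dbl t, F4NL_comp.2.2.1 t ht ((F4NL_lo_iff t).2 h8), F4NL_dbl_f t⟩
  · intro k hk
    ext x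
    constructor
    · rintro ⟨S, h1, ⟨h2, h3⟩, -⟩
      obtain ⟨S', hS', hc⟩ := Finset.exists_subset_card_eq (s := S) (n := 5) (by omega)
      have h5 : (∑ a ∈ S', a) ∈ sosSums RF4 5 :=
        ⟨S', hc, ⟨fun a ha => h2 a (hS' ha), fun a ha b hb => h3 a (hS' ha) b (hS' hb)⟩, rfl⟩
      rw [F4NL_sos, F4NL_comp.2.2.2] at h5
      obtain ⟨t, ht, _⟩ := h5
      exact absurd ht List.not_mem_nil
    · intro h
      exact absurd h (Set.notMem_empty x)
  · intro k h1 h4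
    exact ⟨fun x hx => F4NL_sneg k x hx, F4NL_zero k h1⟩

end Pool.Agent.SOL
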