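import Pool.Agent.helper1.SOL.SpecN

/-!
# Project sol, row NMA: the vertex number 56 for types A and D
-/

set_option autoImplicit false
set_option linter.unusedVariables false

namespace Pool.Agent.SOL

open Pool.Agent.helper54.SOG Finset

open scoped BigOperators

/-! ## type A -/

theorem NMA_sum {n : ℕ} (x : Vec n) (h : ∀ i, |x i| ≤ 1) :
    ∑ i, x i = ((univ.filter fun i => x i = 1).card : ℤ) -
      ((univ.filter fun i => x i = -1).card : ℤ) ∧
    dp x x = ((univ.filter fun i => x i = 1).card : ℤ) +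
      ((univ.filter fun i => x i = -1).card : ℤ) := by
  have hx : ∀ i, x i = 1 ∨ x i = -1 ∨ x i = 0 := by
    intro i
    have h1 := abs_le.1 (h i)
    omega
  rw [Finset.card_filter, Finset.card_filter]
  push_cast
  rw [← Finset.sum_sub_distrib, ← Finset.sum_add_distrib]
  constructor
  · apply Finset.sum_congr rfl
    intro i _
    rcases hx i with h | h | h <;> rw [h] <;> norm_num
  · unfold dp
    apply Finset.sum_congr rfl
    intro i _
    rcases hx i with h | h | h <;> rw [h] <;> norm_num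

/-- the vector of a pair of sets -/
def NMA_vec {n : ℕ} (P Q : Finset (Fin n)) : Vec n :=
  fun i => if i ∈ P then 1 else if i ∈ Q then -1 else 0

theorem NMA_vec_le {n : ℕ} (P Q : Finset (Fin n)) (i : Fin n) : |NMA_vec P Q i| ≤ 1 := by
  unfold NMA_vec
  split_ifs <;> norm_num

theorem NMA_vec_pos {n : ℕ} (P Q : Finset (Fin n)) (i : Fin n) (h : i ∈ P) :
    NMA_vec P Q i = 1 := if_pos h

theorem NMA_vec_mid {n : ℕ} (P Q : Finset (Fin n)) (i : Fin n) (h : i ∉ P) (h' : i ∈ Q) :
    NMA_vec P Q i = -1 := by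
  unfold NMA_vec
  rw [if_neg h, if_pos h']

theorem NMA_vec_zero {n : ℕ} (P Q : Finset (Fin n)) (i : Fin n) (h : i ∉ P) (h' : i ∉ Q) :
    NMA_vec P Q i = 0 := by
  unfold NMA_vec
  rw [if_neg h, if_neg h']

theorem NMA_vec_one {n : ℕ} (P Q : Finset (Fin n)) :
    (univ.filter fun i => NMA_vec P Q i = 1) = P := by
  ext i
  rw [Finset.mem_filter]
  constructor
  · rintro ⟨-, h⟩
    by_contra h1
    by_cases h2 : i ∈ Q
    · rw [NMA_vec_mid P Q i h1 h2] at h
      omega
    · rw [NMA_vec_zero P Q i h1 h2] at h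
      omega
  · intro h
    exact ⟨Finset.mem_univ _, NMA_vec_pos P Q i h⟩

theorem NMA_vec_neg {n : ℕ} (P Q : Finset (Fin n)) (hd : Disjoint P Q) :
    (univ.filter fun i => NMA_vec P Q i = -1) = Q := by
  ext i
  rw [Finset.mem_filter]
  constructor
  · rintro ⟨-, h⟩
    by_contra h2
    by_cases h1 : i ∈ P
    · rw [NMA_vec_pos P Q i h1] at h
      omega
    · rw [NMA_vec_zero P Q i h1 h2] at h
      omega
  · intro h
    have h1 : i ∉ P := fun h1 => (Finset.disjoint_left.1 hd) h1 h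
    exact ⟨Finset.mem_univ _, NMA_vec_mid P Q i h1 h⟩

theorem NMA_vec_self {n : ℕ} (x : Vec n) (h : ∀ i, |x i| ≤ 1) :
    NMA_vec (univ.filter fun i => x i = 1) (univ.filter fun i => x i = -1) = x := by
  funext i
  have h1 := abs_le.1 (h i)
  by_cases h2 : x i = 1
  · rw [NMA_vec_pos _ _ i (by rw [Finset.mem_filter]; exact ⟨Finset.mem_univ _, h2⟩), h2]
  · have h3 : i ∉ (univ.filter fun i => x i = 1) := by
      rw [Finset.mem_filter]
      exact fun h3 => h2 h3.2
    by_cases h4 : x i = -1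
    · rw [NMA_vec_mid _ _ i h3 (by rw [Finset.mem_filter]; exact ⟨Finset.mem_univ _, h4⟩), h4]
    · rw [NMA_vec_zero _ _ i h3 (by rw [Finset.mem_filter]; exact fun h5 => h4 h5.2)]
      omega

theorem NMA_VA (n k : ℕ) : (VA n k).ncard = n.choose k * (n - k).choose k := by
  classical
  let S : Finset ((_ : Finset (Fin n)) × Finset (Fin n)) :=
    (powersetCard k (univ : Finset (Fin n))).sigma (fun P => powersetCard k (univ \ P))
  have hS : ∀ p : (_ : Finset (Fin n)) × Finset (Fin n),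
      p ∈ S ↔ p.1.card = k ∧ Disjoint p.1 p.2 ∧ p.2.card = k := by
    intro p
    show p ∈ (powersetCard k (univ : Finset (Fin n))).sigma _ ↔ _
    rw [Finset.mem_sigma, Finset.mem_powersetCard, Finset.mem_powersetCard]
    constructor
    · rintro ⟨⟨-, h1⟩, h2, h3⟩
      refine ⟨h1, ?_, h3⟩
      rw [Finset.disjoint_left]
      intro a ha hb
      exact (Finset.mem_sdiff.1 (h2 hb)).2 ha
    · rintro ⟨h1, h2, h3⟩
      refine ⟨⟨Finset.subset_univ _, h1⟩, ?_, h3⟩
      intro a ha
      exact Finset.mem_sdiff.2 ⟨Finset.mem_univ _, fun h => (Finset.disjoint_left.1 h2) h ha⟩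
  have h1 : VA n k = (S.image (fun p => NMA_vec p.1 p.2) : Finset (Vec n)) := by
    ext x
    rw [Finset.mem_coe, Finset.mem_image]
    constructor
    · rintro ⟨h1, h2, h3⟩
      obtain ⟨h4, h5⟩ := NMA_sum x h1
      rw [h4] at h2
      rw [h5] at h3
      refine ⟨⟨univ.filter fun i => x i = 1, univ.filter fun i => x i = -1⟩, ?_,
        NMA_vec_self x h1⟩
      rw [hS]
      refine ⟨?_, ?_, ?_⟩
      · show (univ.filter fun i => x i = 1).card = k
        omega
      · rw [Finset.disjoint_left]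
        intro a ha hb
        have ha' := (Finset.mem_filter.1 ha).2
        have hb' := (Finset.mem_filter.1 hb).2
        rw [ha'] at hb'
        norm_num at hb'
      · show (univ.filter fun i => x i = -1).card = k
        omega
    · rintro ⟨p, hp, rfl⟩
      obtain ⟨h1, h2, h3⟩ := (hS p).1 hp
      obtain ⟨h4, h5⟩ := NMA_sum (NMA_vec p.1 p.2) (NMA_vec_le p.1 p.2)
      rw [NMA_vec_one, NMA_vec_neg _ _ h2, h1, h3] at h4 h5
      refine ⟨NMA_vec_le p.1 p.2, ?_, ?_⟩
      · rw [h4]; ring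
      · rw [h5]; ring
  rw [h1, Set.ncard_coe_finset, Finset.card_image_of_injOn]
  · show ((powersetCard k (univ : Finset (Fin n))).sigma
      (fun P => powersetCard k (univ \ P))).card = _
    rw [Finset.card_sigma]
    have h2 : ∀ P ∈ powersetCard k (univ : Finset (Fin n)),
        (powersetCard k (univ \ P)).card = (n - k).choose k := by
      intro P hP
      rw [Finset.card_powersetCard, Finset.card_sdiff_of_subset (Finset.subset_univ _),
        (Finset.mem_powersetCard.1 hP).2, Finset.card_univ, Fintype.card_fin]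
    rw [Finset.sum_congr rfl h2, Finset.sum_const, Finset.card_powersetCard, Finset.card_univ,
      Fintype.card_fin, smul_eq_mul]
  · rintro ⟨P, Q⟩ hp ⟨P', Q'⟩ hq h
    obtain ⟨-, h2, -⟩ := (hS _).1 (Finset.mem_coe.1 hp)
    obtain ⟨-, h3, -⟩ := (hS _).1 (Finset.mem_coe.1 hq)
    have h : NMA_vec P Q = NMA_vec P' Q' := h
    have e1 : P = P' := by rw [← NMA_vec_one P Q, ← NMA_vec_one P' Q', h]
    have e2 : Q = Q' := by rw [← NMA_vec_neg P Q h2, ← NMA_vec_neg P' Q' h3, h]
    rw [e1, e2]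

theorem NMA_mono (a b c d : ℕ) (ha : c ≤ a) (hb : d ≤ b) :
    (c + d).choose c ≤ (a + b).choose a := by
  have h1 : (c + d).choose c ≤ (c + b).choose c := Nat.choose_le_choose c (by omega)
  have h2 : (c + b).choose c = (c + b).choose b := Nat.choose_symm_of_eq_add (by omega)
  have h3 : (c + b).choose b ≤ (a + b).choose b := Nat.choose_le_choose b (by omega)
  have h4 : (a + b).choose b = (a + b).choose a := Nat.choose_symm_of_eq_add (by omega)
  omega

theorem NMA_partA (n k : ℕ) (h1 : 1 ≤ k) (h2 : 3 * k ≤ n) (h : (VA n k).ncard = 56) :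
    k = 1 ∧ n = 8 := by
  rw [NMA_VA] at h
  rcases Nat.lt_or_ge k 2 with hk | hk
  · have hk1 : k = 1 := by omega
    subst hk1
    refine ⟨rfl, ?_⟩
    rw [Nat.choose_one_right, Nat.choose_one_right] at h
    rcases Nat.lt_or_ge n 9 with hn | hn
    · interval_cases n <;> omega
    · exfalso
      have h3 : 9 * 8 ≤ n * (n - 1) := Nat.mul_le_mul hn (by omega)
      omega
  · exfalso
    have h3 := NMA_mono k (n - k) 2 4 hk (by omega)
    have h4 := NMA_mono k (n - k - k) 2 2 hk (by omega)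
    have e3 : k + (n - k) = n := by omega
    have e4 : k + (n - k - k) = n - k := by omega
    rw [e3] at h3
    rw [e4] at h4
    have c3 : (2 + 4 : ℕ).choose 2 = 15 := by decide
    have c4 : (2 + 2 : ℕ).choose 2 = 6 := by decide
    rw [c3] at h3
    rw [c4] at h4
    have h5 : 15 * 6 ≤ n.choose k * (n - k).choose k := Nat.mul_le_mul h3 h4
    omega

/-! ## type D -/

/-- the number of vectors of type `(t, s)` -/
def NMA_num (n t s : ℕ) : ℕ := n.choose t * (n - t).choose s * 2 ^ (t + s)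

/-- the types -/
def NMA_P (n k : ℕ) : Finset (ℕ × ℕ) :=
  ((range (k + 1)) ×ˢ (range (2 * k + 1))).filter
    (fun p => 4 * p.1 + p.2 = 2 * k ∧ 2 * p.1 + p.2 ≤ n)

theorem NMA_mem {n k : ℕ} {p : ℕ × ℕ} : p ∈ NMA_P n k ↔
    4 * p.1 + p.2 = 2 * k ∧ 2 * p.1 + p.2 ≤ n := by
  unfold NMA_P
  rw [Finset.mem_filter, Finset.mem_product, Finset.mem_range, Finset.mem_range]
  constructor
  · intro h; exact h.2
  · intro h
    refine ⟨⟨?_, ?_⟩, h⟩ <;> omega

theorem NMA_td (hCRD : CRD_stmt) (n t s : ℕ) : (TD n t s).ncard = NMA_num n t s := by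
  obtain ⟨-, h2, h3⟩ := hCRD
  by_cases h : t + s ≤ n
  · exact h2 n t s h
  · rw [h3 n t s (by omega), Set.ncard_empty]
    unfold NMA_num
    by_cases ht : t ≤ n
    · have h4 : (n - t).choose s = 0 := Nat.choose_eq_zero_of_lt (by omega)
      rw [h4, Nat.mul_zero, Nat.zero_mul]
    · have h4 : n.choose t = 0 := Nat.choose_eq_zero_of_lt (by omega)
      rw [h4, Nat.zero_mul, Nat.zero_mul]

theorem NMA_card (hCNT : CNT_stmt) (hCRD : CRD_stmt) (n k : ℕ) :
    (VD n k).ncard = ∑ p ∈ NMA_P n k, NMA_num n p.1 p.2 := by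
  classical
  have hfin := hCRD.1
  let T : ℕ × ℕ → Finset (Vec n) := fun p => (hfin n p.1 p.2).toFinset
  have hT : ∀ p x, x ∈ T p ↔ x ∈ TD n p.1 p.2 := by
    intro p x
    exact Set.Finite.mem_toFinset _
  have h1 : VD n k = ((NMA_P n k).biUnion T : Finset (Vec n)) := by
    ext x
    rw [Finset.mem_coe, Finset.mem_biUnion]
    rw [hCNT.2.1 n k x]
    constructor
    · rintro ⟨h1, h2, h3⟩
      exact ⟨(cnt x 2, cnt x 1), NMA_mem.2 ⟨h2, h3⟩, (hT _ _).2 ⟨h1, rfl, rfl⟩⟩
    · rintro ⟨p, hp, hx⟩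
      obtain ⟨h1, h2, h3⟩ := (hT _ _).1 hx
      obtain ⟨h4, h5⟩ := NMA_mem.1 hp
      rw [h2, h3]
      exact ⟨h1, h4, h5⟩
  rw [h1, Set.ncard_coe_finset, Finset.card_biUnion]
  · refine Finset.sum_congr rfl fun p _ => ?_
    rw [← NMA_td hCRD, Set.ncard_eq_toFinset_card _ (hfin n p.1 p.2)]
  · intro p _ q _ hpq
    show Disjoint (T p) (T q)
    rw [Finset.disjoint_left]
    intro x hx hx'
    apply hpq
    obtain ⟨-, h2, h3⟩ := (hT _ _).1 hx
    obtain ⟨-, h4, h5⟩ := (hT _ _).1 hx'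
    exact Prod.ext (h2.symm.trans h4) (h3.symm.trans h5)

theorem NMA_lb (hCNT : CNT_stmt) (hCRD : CRD_stmt) (n k t s : ℕ)
    (h1 : 4 * t + s = 2 * k) (h2 : 2 * t + s ≤ n) :
    NMA_num n t s ≤ (VD n k).ncard := by
  rw [NMA_card hCNT hCRD]
  have h3 : (t, s) ∈ NMA_P n k := NMA_mem.2 ⟨h1, h2⟩
  exact Finset.single_le_sum (f := fun p : ℕ × ℕ => NMA_num n p.1 p.2) (fun _ _ => Nat.zero_le _) h3

theorem NMA_lb2 (hCNT : CNT_stmt) (hCRD : CRD_stmt) (n k t s t' s' : ℕ)
    (h1 : 4 * t + s = 2 * k) (h2 : 2 * t + s ≤ n)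
    (h1' : 4 * t' + s' = 2 * k) (h2' : 2 * t' + s' ≤ n)
    (hne : s ≠ s') :
    NMA_num n t s + NMA_num n t' s' ≤ (VD n k).ncard := by
  rw [NMA_card hCNT hCRD]
  have h3 : ({(t, s), (t', s')} : Finset (ℕ × ℕ)) ⊆ NMA_P n k := by
    intro p hp
    rw [Finset.mem_insert, Finset.mem_singleton] at hp
    rcases hp with rfl | rfl
    · exact NMA_mem.2 ⟨h1, h2⟩
    · exact NMA_mem.2 ⟨h1', h2'⟩
  have h4 : ∑ p ∈ ({(t, s), (t', s')} : Finset (ℕ × ℕ)), NMA_num n p.1 p.2 =
      NMA_num n t s + NMA_num n t' s' := by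
    rw [Finset.sum_pair]
    intro h
    exact hne (congrArg Prod.snd h)
  rw [← h4]
  exact Finset.sum_le_sum_of_subset h3

theorem NMA_one (hCNT : CNT_stmt) (hCRD : CRD_stmt) (n : ℕ) (hn : 2 ≤ n) :
    (VD n 1).ncard = 2 * (n * (n - 1)) := by
  rw [NMA_card hCNT hCRD]
  have h1 : NMA_P n 1 = {(0, 2)} := by
    ext ⟨t, s⟩
    rw [NMA_mem, Finset.mem_singleton, Prod.mk.injEq]
    dsimp only
    omega
  rw [h1, Finset.sum_singleton]
  unfold NMA_num
  have h2 : n.choose 2 * 2 = n * (n - 1) := by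
    rw [Nat.choose_two_right, Nat.div_mul_cancel]
    exact (Nat.even_mul_pred_self n).two_dvd
  simp only [Nat.choose_zero_right, Nat.sub_zero, Nat.zero_add, one_mul]
  omega

theorem NMA_partD (hCNT : CNT_stmt) (hCRD : CRD_stmt) (n k : ℕ) (h4 : 4 ≤ n) (h1 : 1 ≤ k)
    (h : (k % 4 = 0 ∧ k ≤ n) ∨ (k % 2 = 1 ∧ k + 1 ≤ n) ∨ (k % 4 = 2 ∧ k + 2 ≤ n)) :
    (VD n k).ncard ≠ 56 := by
  have lb := NMA_lb hCNT hCRD
  have lb2 := NMA_lb2 hCNT hCRD
  have cd := NMA_card hCNT hCRD
  have key : 57 ≤ (VD n k).ncard → (VD n k).ncard ≠ 56 := by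
    intro h; omega
  rcases Nat.lt_or_ge k 8 with hk | hk
  · have hk8 : k = 1 ∨ k = 2 ∨ k = 3 ∨ k = 4 ∨ k = 5 ∨ k = 6 ∨ k = 7 := by omega
    rcases hk8 with rfl | rfl | rfl | rfl | rfl | rfl | rfl
    · rw [NMA_one hCNT hCRD n (by omega)]
      rcases Nat.lt_or_ge n 6 with hn | hn
      · interval_cases n <;> decide
      · have h3 : 6 * 5 ≤ n * (n - 1) := Nat.mul_le_mul hn (by omega)
        omega
    · rcases Nat.lt_or_ge n 5 with hn | hn
      · have hn4 : n = 4 := by omega
        subst hn4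
        rw [cd 4 2]
        decide
      · apply key
        have h3 := lb2 n 2 0 4 1 0 (by omega) (by omega) (by omega) (by omega) (by omega)
        have h4 : (5 : ℕ).choose 4 ≤ n.choose 4 := Nat.choose_le_choose 4 hn
        have h5 : (5 : ℕ).choose 4 = 5 := by decide
        unfold NMA_num at h3
        simp only [Nat.choose_zero_right, Nat.sub_zero, Nat.zero_add, Nat.choose_one_right,
          one_mul, Nat.add_zero, mul_one] at h3
        omega
    · apply key
      have h3 := lb n 3 1 2 (by omega) (by omega)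
      have h5 : (3 : ℕ).choose 2 ≤ (n - 1).choose 2 := Nat.choose_le_choose 2 (by omega)
      have h6 : (3 : ℕ).choose 2 = 3 := by decide
      unfold NMA_num at h3
      simp only [Nat.choose_one_right] at h3
      rw [h6] at h5
      have h7 : 4 * 3 ≤ n * (n - 1).choose 2 := Nat.mul_le_mul h4 h5
      omega
    · rcases Nat.lt_or_ge n 6 with hn | hn
      · rw [cd n 4]
        interval_cases n <;> decide
      · apply key
        have h3 := lb n 4 1 4 (by omega) (by omega)
        have h5 : (5 : ℕ).choose 4 ≤ (n - 1).choose 4 := Nat.choose_le_choose 4 (by omega)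
        have h6 : (5 : ℕ).choose 4 = 5 := by decide
        unfold NMA_num at h3
        simp only [Nat.choose_one_right] at h3
        rw [h6] at h5
        have h7 : 6 * 5 ≤ n * (n - 1).choose 4 := Nat.mul_le_mul hn h5
        omega
    · apply key
      have h3 := lb n 5 2 2 (by omega) (by omega)
      have h5 : (4 : ℕ).choose 2 ≤ (n - 2).choose 2 := Nat.choose_le_choose 2 (by omega)
      have h6 : (4 : ℕ).choose 2 = 6 := by decide
      have h5' : (6 : ℕ).choose 2 ≤ n.choose 2 := Nat.choose_le_choose 2 (by omega)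
      have h6' : (6 : ℕ).choose 2 = 15 := by decide
      unfold NMA_num at h3
      rw [h6] at h5
      rw [h6'] at h5'
      have h7 : 15 * 6 ≤ n.choose 2 * (n - 2).choose 2 := Nat.mul_le_mul h5' h5
      omega
    · apply key
      have h3 := lb n 6 3 0 (by omega) (by omega)
      have h5 : (8 : ℕ).choose 3 ≤ n.choose 3 := Nat.choose_le_choose 3 (by omega)
      have h6 : (8 : ℕ).choose 3 = 56 := by decide
      unfold NMA_num at h3
      simp only [Nat.choose_zero_right, Nat.add_zero, mul_one] at h3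
      omega
    · apply key
      have h3 := lb n 7 3 2 (by omega) (by omega)
      have h5 : (5 : ℕ).choose 2 ≤ (n - 3).choose 2 := Nat.choose_le_choose 2 (by omega)
      have h6 : (5 : ℕ).choose 2 = 10 := by decide
      have h5' : (8 : ℕ).choose 3 ≤ n.choose 3 := Nat.choose_le_choose 3 (by omega)
      have h6' : (8 : ℕ).choose 3 = 56 := by decide
      unfold NMA_num at h3
      rw [h6] at h5
      rw [h6'] at h5'
      have h7 : 56 * 10 ≤ n.choose 3 * (n - 3).choose 2 := Nat.mul_le_mul h5' h5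
      omega
  · apply key
    have h6 : ∀ t s : ℕ, 4 ≤ t → t + s ≤ n → 2 * t ≤ n → 57 ≤ NMA_num n t s := by
      intro t s ht hts h2t
      unfold NMA_num
      have h7 := NMA_mono t (n - t) 4 4 ht (by omega)
      have e7 : t + (n - t) = n := by omega
      have c7 : (4 + 4 : ℕ).choose 4 = 70 := by decide
      rw [e7, c7] at h7
      have h8 : 1 ≤ (n - t).choose s := Nat.choose_pos (by omega)
      have h9 : 1 ≤ 2 ^ (t + s) := Nat.one_le_two_pow
      have h10 : 70 * 1 * 1 ≤ n.choose t * (n - t).choose s * 2 ^ (t + s) :=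
        Nat.mul_le_mul (Nat.mul_le_mul h7 h8) h9
      omega
    rcases Nat.even_or_odd' k with ⟨t, ht | ht⟩
    · exact le_trans (h6 t 0 (by omega) (by omega) (by omega))
        (lb n k t 0 (by omega) (by omega))
    · exact le_trans (h6 t 2 (by omega) (by omega) (by omega))
        (lb n k t 2 (by omega) (by omega))

/-! ## degrees -/

theorem NMA_swp_swp {n : ℕ} (a b : Fin n) (x : Vec n) : swp a b (swp a b x) = x := by
  funext j
  unfold swp
  rw [Equiv.swap_apply_self]

theorem NMA_swp_sub {n : ℕ} (a b : Fin n) (x y : Vec n) :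
    swp a b (x - y) = swp a b x - swp a b y := rfl

theorem NMA_swp_mem {n k : ℕ} (a b : Fin n) (x : Vec n) (hx : x ∈ VA n k) :
    swp a b x ∈ VA n k := by
  obtain ⟨h1, h2, h3⟩ := hx
  refine ⟨fun i => h1 _, ?_, ?_⟩
  · rw [← h2]
    exact Equiv.sum_comp (Equiv.swap a b) x
  · rw [← h3]
    exact Equiv.sum_comp (Equiv.swap a b) (fun i => x i * x i)

theorem NMA_deg {n k : ℕ} (a b : Fin n) (x : Vec n) :
    (NB (VA n k) (swp a b x)).ncard = (NB (VA n k) x).ncard := by
  have h1 : NB (VA n k) (swp a b x) = swp a b '' NB (VA n k) x := by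
    ext y
    constructor
    · rintro ⟨h1, h2⟩
      refine ⟨swp a b y, ⟨NMA_swp_mem a b y h1, ?_⟩, NMA_swp_swp a b y⟩
      have h3 := NMA_swp_mem a b _ h2
      rw [NMA_swp_sub, NMA_swp_swp] at h3
      exact h3
    · rintro ⟨z, ⟨h1, h2⟩, rfl⟩
      refine ⟨NMA_swp_mem a b z h1, ?_⟩
      have h3 := NMA_swp_mem a b _ h2
      rw [NMA_swp_sub] at h3
      exact h3
  rw [h1]
  apply Set.ncard_image_of_injective
  intro y z h
  have h2 : swp a b (swp a b y) = swp a b (swp a b z) := congrArg _ h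
  rw [NMA_swp_swp, NMA_swp_swp] at h2
  exact h2

theorem NMA (hCNT : CNT_stmt) (hCRD : CRD_stmt) (hTRS : TRS_stmt) : NMA_stmt := by
  refine ⟨NMA_partA, NMA_partD hCNT hCRD, ?_⟩
  intro n x y hx hy
  exact hTRS.2 n ℕ (fun x => (NB (VA n 1) x).ncard) (fun x _ a b => NMA_deg a b x) x hx y hy

end Pool.Agent.SOL
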